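import Pool.Agent.Helper65.HR2.Point2

/-!
MP_16b0ee, project HR2: a fast form of the check `AP2.c7`, which implies it: exact rational
arithmetic with natural numbers only.
-/

set_option autoImplicit false
set_option linter.unusedSectionVars false
set_option linter.unusedTactic false

namespace Pool.Agent.Helper65.HR2.F7

/-! rational numbers -/

/-- a rational number: positive and negative parts of the numerator, denominator -/
structure QF where
  /-- positive part -/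
  p : ℕ
  /-- negative part -/
  n : ℕ
  /-- denominator -/
  d : ℕ

/-- `x` is `q` -/
def Rp (x : QF) (q : ℚ) : Prop := 0 < x.d ∧ ((x.p : ℚ) - (x.n : ℚ)) = q * (x.d : ℚ)

/-- evaluation of the argument before the call -/
noncomputable def frc {α : Type} (k : ℕ → α) (n : ℕ) : α :=
  Nat.rec (motive := fun _ => α) (k 0) (fun m _ => k (Nat.succ m)) n

theorem frc_eq {α : Type} (k : ℕ → α) (n : ℕ) : frc k n = k n := by
  cases n <;> rfl

/-- normalization -/
noncomputable def nrm (p n d : ℕ) : QF :=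
  frc (fun q => frc (fun m => frc (fun e => frc (fun g =>
    QF.mk (Nat.div q g) (Nat.div m g) (Nat.div e g)) (Nat.gcd (Nat.add q m) e)) d)
      (Nat.sub n p)) (Nat.sub p n)

theorem nrm_eq (p n d : ℕ) : nrm p n d = QF.mk ((p - n) / Nat.gcd ((p - n) + (n - p)) d)
    ((n - p) / Nat.gcd ((p - n) + (n - p)) d) (d / Nat.gcd ((p - n) + (n - p)) d) := by
  rw [nrm, frc_eq, frc_eq, frc_eq, frc_eq]
  rfl

theorem Rp_nrm {p n d : ℕ} (hd : 0 < d) {q : ℚ} (h : ((p : ℚ) - (n : ℚ)) = q * (d : ℚ)) :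
    Rp (nrm p n d) q := by
  rw [nrm_eq]
  obtain ⟨g, hg⟩ : ∃ g, g = Nat.gcd ((p - n) + (n - p)) d := ⟨_, rfl⟩
  have hg0 : 0 < g := by
    rw [hg]
    exact Nat.gcd_pos_of_pos_right _ hd
  have h1 : g ∣ (p - n) + (n - p) := by rw [hg]; exact Nat.gcd_dvd_left _ _
  have h2 : g ∣ d := by rw [hg]; exact Nat.gcd_dvd_right _ _
  have h3 : g ∣ p - n ∧ g ∣ n - p := by
    rcases le_total p n with h | h
    · rw [Nat.sub_eq_zero_of_le h] at h1 ⊢
      rw [zero_add] at h1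
      exact ⟨dvd_zero _, h1⟩
    · rw [Nat.sub_eq_zero_of_le h] at h1 ⊢
      rw [add_zero] at h1
      exact ⟨h1, dvd_zero _⟩
  rw [← hg]
  obtain ⟨⟨a, ha⟩, ⟨b, hb⟩⟩ := h3
  obtain ⟨e, he⟩ := h2
  have hgq : (g : ℚ) ≠ 0 := by exact_mod_cast hg0.ne'
  have h4 : ((p : ℚ) - (n : ℚ)) = (g : ℚ) * ((a : ℚ) - (b : ℚ)) := by
    rcases le_total p n with h | h
    · have e1 : (p - n : ℕ) = 0 := Nat.sub_eq_zero_of_le h
      rw [e1] at ha
      have e2 : a = 0 := by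
        rcases Nat.mul_eq_zero.1 ha.symm with h | h
        · omega
        · exact h
      have e3 : n = p + g * b := by omega
      rw [e3, e2]
      push_cast
      ring
    · have e1 : (n - p : ℕ) = 0 := Nat.sub_eq_zero_of_le h
      rw [e1] at hb
      have e2 : b = 0 := by
        rcases Nat.mul_eq_zero.1 hb.symm with h | h
        · omega
        · exact h
      have e3 : p = n + g * a := by omega
      rw [e3, e2]
      push_cast
      ring
  constructor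
  · change 0 < d / g
    rw [he, Nat.mul_div_cancel_left _ hg0]
    rcases Nat.eq_zero_or_pos e with h | h
    · rw [h, mul_zero] at he
      omega
    · exact h
  · change (((p - n) / g : ℕ) : ℚ) - (((n - p) / g : ℕ) : ℚ) = q * ((d / g : ℕ) : ℚ)
    rw [ha, hb, he, Nat.mul_div_cancel_left _ hg0, Nat.mul_div_cancel_left _ hg0,
      Nat.mul_div_cancel_left _ hg0]
    rw [h4, he] at h
    push_cast at h
    have h5 : (g : ℚ) * (((a : ℚ) - (b : ℚ)) - q * (e : ℚ)) = 0 := by linarith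
    rcases mul_eq_zero.1 h5 with h6 | h6
    · exact absurd h6 hgq
    · linarith

/-- `x` is `q` in lowest terms -/
def Cq (x : QF) (q : ℚ) : Prop := x.d = q.den ∧ x.p = q.num.toNat ∧ x.n = (-q.num).toNat

theorem Cq.rp {x : QF} {q : ℚ} (h : Cq x q) : Rp x q := by
  obtain ⟨h1, h2, h3⟩ := h
  refine ⟨by rw [h1]; exact q.den_pos, ?_⟩
  rw [h1, h2, h3]
  have h4 : ((q.num.toNat : ℕ) : ℤ) - (((-q.num).toNat : ℕ) : ℤ) = q.num := by omega
  have h5 : ((q.num.toNat : ℕ) : ℚ) - (((-q.num).toNat : ℕ) : ℚ) = (q.num : ℚ) := by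
    exact_mod_cast h4
  rw [h5]
  have h6 := Rat.num_div_den q
  have h7 : (q.den : ℚ) ≠ 0 := by exact_mod_cast q.den_pos.ne'
  field_simp at h6
  linarith

theorem Cq_of {x : QF} {q : ℚ} (h : Rp x q) (h0 : x.p = 0 ∨ x.n = 0)
    (hc : Nat.Coprime (x.p + x.n) x.d) : Cq x q := by
  obtain ⟨p, n, d⟩ := x
  obtain ⟨h1, h2⟩ := h
  simp only at h1 h2 h0 hc
  have hd : (d : ℚ) ≠ 0 := by exact_mod_cast h1.ne'
  obtain ⟨a, ha⟩ : ∃ a : ℤ, a = (p : ℤ) - (n : ℤ) := ⟨_, rfl⟩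
  have h3 : q = (a : ℚ) / ((d : ℤ) : ℚ) := by
    rw [ha, eq_div_iff (by exact_mod_cast h1.ne')]
    push_cast
    linarith
  have h4 : a.natAbs = p + n := by
    rcases h0 with h | h
    · rw [ha, h]
      omega
    · rw [ha, h]
      omega
  have h5 : Nat.Coprime a.natAbs (d : ℤ).natAbs := by
    rw [h4, Int.natAbs_natCast]
    exact hc
  have h6 : q.num = a := by
    rw [h3]
    exact Rat.num_div_eq_of_coprime (by exact_mod_cast h1) h5
  have h7 : ((q.den : ℕ) : ℤ) = (d : ℤ) := by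
    rw [h3]
    exact Rat.den_div_eq_of_coprime (by exact_mod_cast h1) h5
  refine ⟨?_, ?_, ?_⟩
  · exact_mod_cast h7.symm
  · change p = _
    rw [h6, ha]
    omega
  · change n = _
    rw [h6, ha]
    omega

theorem Cq_nrm {p n d : ℕ} (hd : 0 < d) {q : ℚ} (h : ((p : ℚ) - (n : ℚ)) = q * (d : ℚ)) :
    Cq (nrm p n d) q := by
  refine Cq_of (Rp_nrm hd h) ?_ ?_
  · rw [nrm_eq]
    simp only
    rcases le_total p n with h | h
    · left
      rw [Nat.sub_eq_zero_of_le h, Nat.zero_div]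
    · right
      rw [Nat.sub_eq_zero_of_le h, Nat.zero_div]
  · rw [nrm_eq]
    simp only
    have hg : 0 < Nat.gcd ((p - n) + (n - p)) d := Nat.gcd_pos_of_pos_right _ hd
    have e : (p - n) / Nat.gcd ((p - n) + (n - p)) d + (n - p) / Nat.gcd ((p - n) + (n - p)) d
        = ((p - n) + (n - p)) / Nat.gcd ((p - n) + (n - p)) d := by
      rcases le_total p n with h | h
      · rw [Nat.sub_eq_zero_of_le h, Nat.zero_div, zero_add, zero_add]
      · rw [Nat.sub_eq_zero_of_le h, Nat.zero_div, add_zero, add_zero]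
    rw [e]
    exact Nat.coprime_div_gcd_div_gcd hg

namespace QF

/-- sum -/
noncomputable def add (x y : QF) : QF :=
  QF.rec (motive := fun _ => QF) (fun p n d => QF.rec (motive := fun _ => QF)
    (fun p' n' d' => nrm (Nat.add (Nat.mul p d') (Nat.mul p' d))
      (Nat.add (Nat.mul n d') (Nat.mul n' d)) (Nat.mul d d')) y) x

/-- difference -/
noncomputable def sub (x y : QF) : QF :=
  QF.rec (motive := fun _ => QF) (fun p n d => QF.rec (motive := fun _ => QF)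
    (fun p' n' d' => nrm (Nat.add (Nat.mul p d') (Nat.mul n' d))
      (Nat.add (Nat.mul n d') (Nat.mul p' d)) (Nat.mul d d')) y) x

/-- product -/
noncomputable def mul (x y : QF) : QF :=
  QF.rec (motive := fun _ => QF) (fun p n d => QF.rec (motive := fun _ => QF)
    (fun p' n' d' => nrm (Nat.add (Nat.mul p p') (Nat.mul n n'))
      (Nat.add (Nat.mul p n') (Nat.mul n p')) (Nat.mul d d')) y) x

/-- quotient -/
noncomputable def div (x y : QF) : QF :=
  QF.rec (motive := fun _ => QF) (fun p n d => QF.rec (motive := fun _ => QF)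
    (fun p' n' d' => nrm (Nat.mul (Nat.add (Nat.mul p p') (Nat.mul n n')) d')
      (Nat.mul (Nat.add (Nat.mul p n') (Nat.mul n p')) d')
      (Nat.mul d (Nat.mul (Nat.add (Nat.sub p' n') (Nat.sub n' p'))
        (Nat.add (Nat.sub p' n') (Nat.sub n' p'))))) y) x

end QF

/-- a natural number -/
noncomputable def qn (a : ℕ) : QF := ⟨a, 0, 1⟩

theorem Cq_qn (a : ℕ) : Cq (qn a) (a : ℚ) := by
  rw [qn]
  refine ⟨?_, ?_, ?_⟩
  · change 1 = ((a : ℚ)).den
    rw [Rat.den_natCast]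
  · change a = ((a : ℚ)).num.toNat
    rw [Rat.num_natCast]
    rfl
  · change 0 = (-((a : ℚ)).num).toNat
    rw [Rat.num_natCast]
    omega

theorem Cq_add {x y : QF} {q r : ℚ} (hx : Cq x q) (hy : Cq y r) : Cq (x.add y) (q + r) := by
  obtain ⟨h1, h2⟩ := hx.rp
  obtain ⟨h3, h4⟩ := hy.rp
  obtain ⟨p, n, d⟩ := x
  obtain ⟨p', n', d'⟩ := y
  refine Cq_nrm (Nat.mul_pos h1 h3) ?_
  change (((p * d' + p' * d : ℕ) : ℚ) - ((n * d' + n' * d : ℕ) : ℚ)) = _ * ((d * d' : ℕ) : ℚ)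
  simp only at h2 h4
  push_cast
  linear_combination (d' : ℚ) * h2 + (d : ℚ) * h4

theorem Cq_sub {x y : QF} {q r : ℚ} (hx : Cq x q) (hy : Cq y r) : Cq (x.sub y) (q - r) := by
  obtain ⟨h1, h2⟩ := hx.rp
  obtain ⟨h3, h4⟩ := hy.rp
  obtain ⟨p, n, d⟩ := x
  obtain ⟨p', n', d'⟩ := y
  refine Cq_nrm (Nat.mul_pos h1 h3) ?_
  change (((p * d' + n' * d : ℕ) : ℚ) - ((n * d' + p' * d : ℕ) : ℚ)) = _ * ((d * d' : ℕ) : ℚ)
  simp only at h2 h4
  push_cast
  linear_combination (d' : ℚ) * h2 - (d : ℚ) * h4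

theorem Cq_mul {x y : QF} {q r : ℚ} (hx : Cq x q) (hy : Cq y r) : Cq (x.mul y) (q * r) := by
  obtain ⟨h1, h2⟩ := hx.rp
  obtain ⟨h3, h4⟩ := hy.rp
  obtain ⟨p, n, d⟩ := x
  obtain ⟨p', n', d'⟩ := y
  refine Cq_nrm (Nat.mul_pos h1 h3) ?_
  change (((p * p' + n * n' : ℕ) : ℚ) - ((p * n' + n * p' : ℕ) : ℚ)) = _ * ((d * d' : ℕ) : ℚ)
  simp only at h2 h4
  push_cast
  linear_combination ((p' : ℚ) - n') * h2 + (q * d) * h4

theorem Cq_div {x y : QF} {q r : ℚ} (hx : Cq x q) (hy : Cq y r) (hr : r ≠ 0) :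
    Cq (x.div y) (q / r) := by
  obtain ⟨h1, h2⟩ := hx.rp
  obtain ⟨h3, h4⟩ := hy.rp
  obtain ⟨p, n, d⟩ := x
  obtain ⟨p', n', d'⟩ := y
  simp only at h1 h2 h3 h4
  have hd' : (d' : ℚ) ≠ 0 := by exact_mod_cast h3.ne'
  obtain ⟨w, hw⟩ : ∃ w : ℕ, w = (p' - n') + (n' - p') := ⟨_, rfl⟩
  have e1 : ((w * w : ℕ) : ℚ) = ((p' : ℚ) - n') * ((p' : ℚ) - n') := by
    rw [hw]
    rcases le_total p' n' with h | h
    · rw [Nat.sub_eq_zero_of_le h, zero_add]
      push_cast [Nat.cast_sub h]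
      ring
    · rw [Nat.sub_eq_zero_of_le h, add_zero]
      push_cast [Nat.cast_sub h]
      ring
  have hw0 : 0 < w := by
    rcases Nat.eq_zero_or_pos w with h | h
    · rw [h] at hw
      have h5 : p' = n' := by omega
      rw [h5, sub_self] at h4
      rcases mul_eq_zero.1 h4.symm with h6 | h6
      · exact absurd h6 hr
      · exact absurd h6 hd'
    · exact h
  refine Cq_nrm (Nat.mul_pos h1 ?_) ?_
  · change 0 < ((p' - n') + (n' - p')) * ((p' - n') + (n' - p'))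
    rw [← hw]
    exact Nat.mul_pos hw0 hw0
  · change ((((p * p' + n * n') * d' : ℕ) : ℚ) - (((p * n' + n * p') * d' : ℕ) : ℚ))
      = _ * ((d * (((p' - n') + (n' - p')) * ((p' - n') + (n' - p'))) : ℕ) : ℚ)
    rw [← hw, Nat.cast_mul d (w * w), e1]
    push_cast
    have e2 : ((p' : ℚ) - n') = r * d' := h4
    have e3 : ((p : ℚ) - n) = q * d := h2
    have e4 : ((p : ℚ) * p' + n * n') * d' - (p * n' + n * p') * d'
        = ((p : ℚ) - n) * ((p' : ℚ) - n') * d' := by ring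
    rw [e4, e2, e3]
    field_simp

attribute [irreducible] nrm QF.add QF.sub QF.mul QF.div

/-! tables -/

theorem Cq.cast {x : QF} {q q' : ℚ} (h : Cq x q) (e : q = q') : Cq x q' := e ▸ h

section defs

variable (r b : QF)

/-- the moments -/
noncomputable def gmX : ℕ → QF :=
  Nat.rec (motive := fun _ => QF) (qn 1)
    (fun n ih => ih.mul (((QF.mul (qn 2) r).add (qn (Nat.add 2 n))).div (b.add (qn (Nat.add 3 n)))))

/-- the first row, constant part -/
noncomputable def ss0X1 : ℕ → QF :=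
  Nat.rec (motive := fun _ => QF) ((QF.div (qn 1) (b.add (qn 1))).add (qn 1))
    (fun n _ => Nat.rec (motive := fun _ => QF) (qn 0)
      (fun j ih => QF.div ((QF.mul (qn j) (ih.sub (QF.div (qn 1) (b.add (qn (Nat.add 2 j)))))).add
        (qn 1)) ((b.add (qn (Nat.add 1 j))).sub (QF.mul (qn 2) r))) n)

/-- the first row, linear part -/
noncomputable def ss0X2 : ℕ → QF :=
  Nat.rec (motive := fun _ => QF) ((QF.mul (qn 2) r).sub b)
    (fun n _ => Nat.rec (motive := fun _ => QF) (qn 1)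
      (fun j ih => QF.div (QF.mul (qn j) ih)
        ((b.add (qn (Nat.add 1 j))).sub (QF.mul (qn 2) r))) n)

/-- the step of the first column -/
noncomputable def scX (n : ℕ) : QF := ((QF.mul (qn 2) r).add (qn (Nat.add 1 n))).sub b

/-- all rows, constant part -/
noncomputable def ssX1 (n : ℕ) : ℕ → QF :=
  Nat.rec (motive := fun _ => ℕ → QF) (ss0X1 r b)
    (fun n ih => fun j => Nat.rec (motive := fun _ => QF)
      (QF.div ((gmX r b n).add (QF.mul (scX r b n) (ih 0))) (qn (Nat.add 2 n)))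
      (fun j _ => (ih j).sub (QF.div (gmX r b n) (b.add (qn (Nat.add 1 j))))) j) n

/-- all rows, linear part -/
noncomputable def ssX2 (n : ℕ) : ℕ → QF :=
  Nat.rec (motive := fun _ => ℕ → QF) (ss0X2 r b)
    (fun n ih => fun j => Nat.rec (motive := fun _ => QF)
      (QF.div (QF.mul (scX r b n) (ih 0)) (qn (Nat.add 2 n)))
      (fun j _ => ih j) j) n

/-- differences, constant part -/
noncomputable def dsX1 (n : ℕ) : QF := (ssX1 r b n 0).sub (ssX1 r b n 1)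

/-- differences, linear part -/
noncomputable def dsX2 (n : ℕ) : QF := (ssX2 r b n 0).sub (ssX2 r b n 1)

/-- step of the Gram matrix -/
noncomputable def stX (ds : ℕ → QF) (n k : ℕ) (x : QF) : QF :=
  QF.div ((QF.mul (((QF.mul (qn 4) r).add (qn (Nat.add (Nat.add n k) 1))).sub b) x).add
    ((QF.mul (QF.mul (b.add (qn (Nat.add 2 k))) (gmX r b k)) (ds n)).sub
      (QF.mul (QF.mul (qn (Nat.add k 1)) (gmX r b n)) (ds k)))) (b.add (qn (Nat.add 3 (Nat.add n k))))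

/-- step of the Gram matrix, main part -/
noncomputable def stX2 (n k : ℕ) (x : QF) : QF :=
  QF.div (QF.mul (((QF.mul (qn 4) r).add (qn (Nat.add (Nat.add n k) 1))).sub b) x)
    (b.add (qn (Nat.add 3 (Nat.add n k))))

/-- the Gram matrix from a step and an initial value -/
noncomputable def mmX (st : ℕ → ℕ → QF → QF) (x0 : QF) (n k : ℕ) : QF :=
  Nat.rec (motive := fun _ => QF)
    (Nat.rec (motive := fun _ => QF) x0 (fun k ih => st k 0 ih) k)
    (fun n ih => st n k ih) n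

/-- weights -/
noncomputable def wX (k : ℕ) : QF :=
  QF.div (qn 1) (QF.mul (b.add (qn k)) (b.add (qn (Nat.succ k))))

/-- the Pochhammer symbol -/
noncomputable def pochX : ℕ → QF :=
  Nat.rec (motive := fun _ => QF) (qn 1) (fun n ih => ih.mul (b.add (qn n)))

/-- finite sums -/
noncomputable def smX (f : ℕ → QF) : ℕ → QF :=
  Nat.rec (motive := fun _ => QF) (qn 0) (fun n ih => ih.add (f n))

end defs

theorem Cq_one : Cq (qn 1) 1 := by simpa using Cq_qn 1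

theorem Cq_zero : Cq (qn 0) 0 := by simpa using Cq_qn 0

theorem Cq_two : Cq (qn 2) 2 := by simpa using Cq_qn 2

theorem Cq_four : Cq (qn 4) 4 := by simpa using Cq_qn 4

theorem Cq_sm {F : ℕ → QF} {f : ℕ → ℚ} {n : ℕ} (h : ∀ i < n, Cq (F i) (f i)) :
    Cq (smX F n) (sm f n) := by
  induction n with
  | zero => exact Cq_zero
  | succ n ih => exact Cq_add (ih (fun i hi => h i (Nat.lt_succ_of_lt hi))) (h n (Nat.lt_succ_self n))

section sound

variable {r b : QF} {r' b' : ℚ} (hr : Cq r r') (hb : Cq b b') (hb0 : 0 < b')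
  (hσ : 0 < b' + 1 - 2 * r')

include hb in
theorem Cq_bn (n : ℕ) : Cq (b.add (qn n)) (b' + n) := Cq_add hb (Cq_qn n)

include hb0 in
theorem bn_pos (n : ℕ) : 0 < b' + (n : ℚ) := by positivity

include hr hb hb0 in
theorem Cq_gm (n : ℕ) : Cq (gmX r b n) (gmQ r' b' n) := by
  induction n with
  | zero => exact Cq_one
  | succ n ih =>
    have h1 : Cq (gmX r b (n + 1)) _ := Cq_mul ih (Cq_div (Cq_add (Cq_mul Cq_two hr)
      (Cq_qn (Nat.add 2 n))) (Cq_bn hb (Nat.add 3 n)) (bn_pos hb0 _).ne')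
    refine h1.cast ?_
    rw [gmQ]
    change _ * ((_ + ((2 + n : ℕ) : ℚ)) / (_ + ((3 + n : ℕ) : ℚ))) = _
    push_cast
    congr 2 <;> ring

include hr hb hb0 hσ in
theorem Cq_ss01 (j : ℕ) : Cq (ss0X1 r b j) (ss0 r' b' j).1 := by
  have hd : ∀ j : ℕ, Cq ((b.add (qn (Nat.add 1 j))).sub (QF.mul (qn 2) r))
      (b' + ((1 + j : ℕ) : ℚ) - 2 * r') := fun j => Cq_sub (Cq_bn hb _) (Cq_mul Cq_two hr)
  have hd0 : ∀ j : ℕ, b' + ((1 + j : ℕ) : ℚ) - 2 * r' ≠ 0 := by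
    intro j
    have : (0 : ℚ) ≤ j := Nat.cast_nonneg j
    push_cast
    have h2 : 0 < b' + (1 + (j : ℚ)) - 2 * r' := by linarith
    exact h2.ne'
  rcases j with _ | j
  · have h1 : Cq (ss0X1 r b 0) _ := Cq_add (Cq_div Cq_one (Cq_bn hb 1) (bn_pos hb0 _).ne') Cq_one
    refine h1.cast ?_
    rw [ss0]
    push_cast
    ring
  · induction j with
    | zero =>
      refine (show Cq (ss0X1 r b (0 + 1)) 0 from Cq_zero).cast ?_
      rw [zero_add, ss0]
    | succ j ih =>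
      have h1 : Cq (ss0X1 r b (j + 1 + 1)) _ := Cq_div (Cq_add (Cq_mul (Cq_qn j)
        (Cq_sub ih (Cq_div Cq_one (Cq_bn hb (Nat.add 2 j)) (bn_pos hb0 _).ne'))) Cq_one)
        (hd j) (hd0 j)
      refine h1.cast ?_
      rw [ss0]
      change (_ * (_ - 1 / (b' + ((2 + j : ℕ) : ℚ))) + 1) / _ = _
      simp only
      rw [← neg_div_neg_eq]
      push_cast
      congr 1
      · rw [show b' + (2 + (j : ℚ)) = b' + 2 + j from by ring]
        ring
      · ring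

omit hb0 in
include hr hb hσ in
theorem Cq_ss02 (j : ℕ) : Cq (ss0X2 r b j) (ss0 r' b' j).2 := by
  have hd : ∀ j : ℕ, Cq ((b.add (qn (Nat.add 1 j))).sub (QF.mul (qn 2) r))
      (b' + ((1 + j : ℕ) : ℚ) - 2 * r') := fun j => Cq_sub (Cq_bn hb _) (Cq_mul Cq_two hr)
  have hd0 : ∀ j : ℕ, b' + ((1 + j : ℕ) : ℚ) - 2 * r' ≠ 0 := by
    intro j
    have : (0 : ℚ) ≤ j := Nat.cast_nonneg j
    push_cast
    have h2 : 0 < b' + (1 + (j : ℚ)) - 2 * r' := by linarith
    exact h2.ne'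
  rcases j with _ | j
  · have h1 : Cq (ss0X2 r b 0) _ := Cq_sub (Cq_mul Cq_two hr) hb
    refine h1.cast ?_
    rw [ss0]
  · induction j with
    | zero =>
      refine (show Cq (ss0X2 r b (0 + 1)) 1 from Cq_one).cast ?_
      rw [zero_add, ss0]
    | succ j ih =>
      have h1 : Cq (ss0X2 r b (j + 1 + 1)) _ := Cq_div (Cq_mul (Cq_qn j) ih) (hd j) (hd0 j)
      refine h1.cast ?_
      rw [ss0]
      simp only
      rw [← neg_div_neg_eq]
      push_cast
      congr 1 <;> ring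

include hr hb in
theorem Cq_sc (n : ℕ) : Cq (scX r b n) (2 * r' + 1 + n - b') := by
  have h1 : Cq (scX r b n) _ := Cq_sub (Cq_add (Cq_mul Cq_two hr) (Cq_qn (Nat.add 1 n))) hb
  refine h1.cast ?_
  change _ + ((1 + n : ℕ) : ℚ) - _ = _
  push_cast
  ring

include hr hb hb0 hσ in
theorem Cq_ss1 (n : ℕ) : ∀ j, Cq (ssX1 r b n j) (ssQ r' b' n j).1 := by
  induction n with
  | zero =>
    intro j
    have h := Cq_ss01 hr hb hb0 hσ j
    have e : (ssQ r' b' 0 j) = ss0 r' b' j := by rw [ssQ]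
    rw [e]
    exact h
  | succ n ih =>
    intro j
    have h2 : Cq (qn (Nat.add 2 n)) ((n : ℚ) + 2) := by
      refine (Cq_qn _).cast ?_
      change ((2 + n : ℕ) : ℚ) = _
      push_cast
      ring
    rcases j with _ | j
    · have h1 : Cq (ssX1 r b (n + 1) 0) _ := Cq_div (Cq_add (Cq_gm hr hb hb0 n)
        (Cq_mul (Cq_sc hr hb n) (ih 0))) h2 (by positivity)
      rw [ssQ]
      exact h1
    · have h1 : Cq (ssX1 r b (n + 1) (j + 1)) _ := Cq_sub (ih j)
        (Cq_div (Cq_gm hr hb hb0 n) (Cq_bn hb (Nat.add 1 j)) (bn_pos hb0 _).ne')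
      rw [ssQ]
      refine h1.cast ?_
      change _ - _ / (b' + ((1 + j : ℕ) : ℚ)) = _
      push_cast
      rw [add_assoc]

include hr hb hb0 hσ in
theorem Cq_ss2 (n : ℕ) : ∀ j, Cq (ssX2 r b n j) (ssQ r' b' n j).2 := by
  induction n with
  | zero =>
    intro j
    have h := Cq_ss02 hr hb hσ j
    have e : (ssQ r' b' 0 j) = ss0 r' b' j := by rw [ssQ]
    rw [e]
    exact h
  | succ n ih =>
    intro j
    have h2 : Cq (qn (Nat.add 2 n)) ((n : ℚ) + 2) := by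
      refine (Cq_qn _).cast ?_
      change ((2 + n : ℕ) : ℚ) = _
      push_cast
      ring
    rcases j with _ | j
    · have h1 : Cq (ssX2 r b (n + 1) 0) _ := Cq_div (Cq_mul (Cq_sc hr hb n) (ih 0)) h2
        (by positivity)
      rw [ssQ]
      exact h1
    · have h1 : Cq (ssX2 r b (n + 1) (j + 1)) _ := ih j
      rw [ssQ]
      exact h1

include hr hb hb0 in
theorem Cq_st {ds : ℕ → QF} {dq : ℕ → ℚ} (hds : ∀ n, Cq (ds n) (dq n)) (n k : ℕ) {x : QF} {q : ℚ}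
    (hx : Cq x q) : Cq (stX r b ds n k x)
      (((4 * r' - b' + n + k + 1) * q + ((b' + 2 + k) * gmQ r' b' k * dq n
        - (k + 1) * gmQ r' b' n * dq k)) / (b' + 3 + n + k)) := by
  have h1 : Cq (stX r b ds n k x) _ := Cq_div (Cq_add (Cq_mul (Cq_sub (Cq_add (Cq_mul Cq_four hr)
    (Cq_qn (Nat.add (Nat.add n k) 1))) hb) hx)
    (Cq_sub (Cq_mul (Cq_mul (Cq_bn hb (Nat.add 2 k)) (Cq_gm hr hb hb0 k)) (hds n))
      (Cq_mul (Cq_mul (Cq_qn (Nat.add k 1)) (Cq_gm hr hb hb0 n)) (hds k))))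
    (Cq_bn hb (Nat.add 3 (Nat.add n k))) (bn_pos hb0 _).ne'
  refine h1.cast ?_
  change ((_ + ((n + k + 1 : ℕ) : ℚ) - _) * _ + ((b' + ((2 + k : ℕ) : ℚ)) * _ * _
    - ((k + 1 : ℕ) : ℚ) * _ * _)) / (b' + ((3 + (n + k) : ℕ) : ℚ)) = _
  push_cast
  congr 1
  · ring
  · ring

include hr hb hb0 in
theorem Cq_st2 (n k : ℕ) {x : QF} {q : ℚ} (hx : Cq x q) : Cq (stX2 r b n k x)
      ((4 * r' - b' + n + k + 1) * q / (b' + 3 + n + k)) := by
  have h1 : Cq (stX2 r b n k x) _ := Cq_div (Cq_mul (Cq_sub (Cq_add (Cq_mul Cq_four hr)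
    (Cq_qn (Nat.add (Nat.add n k) 1))) hb) hx)
    (Cq_bn hb (Nat.add 3 (Nat.add n k))) (bn_pos hb0 _).ne'
  refine h1.cast ?_
  change ((_ + ((n + k + 1 : ℕ) : ℚ) - _) * _) / (b' + ((3 + (n + k) : ℕ) : ℚ)) = _
  push_cast
  congr 1
  · ring
  · ring

theorem mmX_s (st : ℕ → ℕ → QF → QF) (x0 : QF) (n k : ℕ) :
    mmX st x0 (n + 1) k = st n k (mmX st x0 n k) := rfl

theorem mmX_zs (st : ℕ → ℕ → QF → QF) (x0 : QF) (k : ℕ) :
    mmX st x0 0 (k + 1) = st k 0 (mmX st x0 0 k) := rfl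

include hr hb hb0 hσ in
theorem Cq_mm0 (n k : ℕ) : Cq (mmX (stX r b (dsX1 r b)) (qn 0) n k) (mmQ r' b' n k).c0 := by
  have hds : ∀ n, Cq (dsX1 r b n) ((ssQ r' b' n 0).1 - (ssQ r' b' n 1).1) := fun n =>
    Cq_sub (Cq_ss1 hr hb hb0 hσ n 0) (Cq_ss1 hr hb hb0 hσ n 1)
  have hz : ∀ k, Cq (mmX (stX r b (dsX1 r b)) (qn 0) 0 k) (mm0 r' b' k).c0 := by
    intro k
    induction k with
    | zero => exact Cq_zero
    | succ k ih =>
      rw [mmX_zs, mm0, mmStep]
      exact Cq_st hr hb hb0 hds k 0 ih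
  induction n with
  | zero => rw [mmQ]; exact hz k
  | succ n ih =>
    rw [mmX_s, mmQ, mmStep]
    exact Cq_st hr hb hb0 hds n k ih

include hr hb hb0 hσ in
theorem Cq_mm1 (n k : ℕ) : Cq (mmX (stX r b (dsX2 r b)) (qn 0) n k) (mmQ r' b' n k).c1 := by
  have hds : ∀ n, Cq (dsX2 r b n) ((ssQ r' b' n 0).2 - (ssQ r' b' n 1).2) := fun n =>
    Cq_sub (Cq_ss2 hr hb hb0 hσ n 0) (Cq_ss2 hr hb hb0 hσ n 1)
  have hz : ∀ k, Cq (mmX (stX r b (dsX2 r b)) (qn 0) 0 k) (mm0 r' b' k).c1 := by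
    intro k
    induction k with
    | zero => exact Cq_zero
    | succ k ih =>
      rw [mmX_zs, mm0, mmStep]
      exact Cq_st hr hb hb0 hds k 0 ih
  induction n with
  | zero => rw [mmQ]; exact hz k
  | succ n ih =>
    rw [mmX_s, mmQ, mmStep]
    exact Cq_st hr hb hb0 hds n k ih

include hr hb hb0 in
theorem Cq_mm2 (n k : ℕ) : Cq (mmX (stX2 r b) (qn 1) n k) (mmQ r' b' n k).c2 := by
  have hz : ∀ k, Cq (mmX (stX2 r b) (qn 1) 0 k) (mm0 r' b' k).c2 := by
    intro k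
    induction k with
    | zero => exact Cq_one
    | succ k ih =>
      rw [mmX_zs, mm0, mmStep]
      exact Cq_st2 hr hb hb0 k 0 ih
  induction n with
  | zero => rw [mmQ]; exact hz k
  | succ n ih =>
    rw [mmX_s, mmQ, mmStep]
    exact Cq_st2 hr hb hb0 n k ih

include hb hb0 in
theorem Cq_w (k : ℕ) : Cq (wX b k) (wQ b' k) := by
  have h1 : Cq (wX b k) _ := Cq_div Cq_one (Cq_mul (Cq_bn hb k) (Cq_bn hb (Nat.succ k)))
    (mul_pos (bn_pos hb0 _) (bn_pos hb0 _)).ne'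
  refine h1.cast ?_
  rw [wQ]
  push_cast
  rw [add_assoc b' (k : ℚ) 1]

include hb in
theorem Cq_poch (n : ℕ) : Cq (pochX b n) (AP.pochQ b' n) := by
  induction n with
  | zero => exact Cq_one
  | succ n ih => exact Cq_mul ih (Cq_bn hb n)

end sound

/-! lists -/

/-- numerator, positive part -/
noncomputable def nPX (L : ℕ) (x : QF) : ℕ := Nat.mul x.p (Nat.div L x.d)

/-- numerator, negative part -/
noncomputable def nNX (L : ℕ) (x : QF) : ℕ := Nat.mul x.n (Nat.div L x.d)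

theorem zP_toNat (z : ℤ) (c : ℕ) : zP z c = z.toNat * c := by
  rcases z with a | a
  · rfl
  · change 0 = 0 * c
    rw [zero_mul]

theorem zN_toNat (z : ℤ) (c : ℕ) : zN z c = (-z).toNat * c := by
  rcases z with a | a
  · change 0 = (-(a : ℤ)).toNat * c
    have : (-(a : ℤ)).toNat = 0 := by omega
    rw [this, zero_mul]
  · rfl

theorem nPX_eq (L : ℕ) {x : QF} {q : ℚ} (h : Cq x q) : nPX L x = nP L q := by
  rw [nP, zP_toNat, nPX, h.1, h.2.1]
  rfl

theorem nNX_eq (L : ℕ) {x : QF} {q : ℚ} (h : Cq x q) : nNX L x = nN L q := by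
  rw [nN, zN_toNat, nNX, h.1, h.2.2]
  rfl

theorem nPX_nmN (L : ℕ) {x : QF} {q : ℚ} (h : Cq x q) : nPX L x = nmN L q := by
  rw [nmN, nPX, h.1, h.2.1]

/-- numerator -/
noncomputable def nmX (L : ℕ) (x : QF) : ℤ :=
  Int.mul (Int.subNatNat x.p x.n) (Int.ofNat (Nat.div L x.d))

theorem nmX_eq (L : ℕ) {x : QF} {q : ℚ} (h : Cq x q) : nmX L x = nmr L q := by
  rw [nmr, nmX, h.1, h.2.1, h.2.2]
  congr 1
  rw [Int.subNatNat_eq_coe]
  omega

theorem toNat_mul (z : ℤ) (c : ℕ) : (z * (c : ℤ)).toNat = z.toNat * c := by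
  rcases le_total 0 z with h | h
  · obtain ⟨a, rfl⟩ := Int.eq_ofNat_of_zero_le h
    rw [← Nat.cast_mul, Int.toNat_natCast, Int.toNat_natCast]
  · have h1 : z.toNat = 0 := by omega
    have h2 : z * (c : ℤ) ≤ 0 := mul_nonpos_of_nonpos_of_nonneg h (Int.natCast_nonneg c)
    have h3 : (z * (c : ℤ)).toNat = 0 := by omega
    rw [h1, h3, zero_mul]

theorem toNat_nmr (L : ℕ) (q : ℚ) : Int.toNat (nmr L q) = nP L q := by
  rw [nP, zP_toNat, nmr]
  exact toNat_mul _ _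

theorem toNat_neg_nmr (L : ℕ) (q : ℚ) : Int.toNat (Int.neg (nmr L q)) = nN L q := by
  rw [nN, zN_toNat, nmr]
  change Int.toNat (-(q.num * ((L / q.den : ℕ) : ℤ))) = _
  rw [← neg_mul]
  exact toNat_mul _ _

/-- the least common denominator -/
noncomputable def lcdX (f : ℕ → QF) : ℕ → ℕ :=
  Nat.rec (motive := fun _ => ℕ) 1 (fun n ih => Nat.lcm ih (f n).d)

/-- the least common denominator of a matrix -/
noncomputable def lcd2X (f : ℕ → ℕ → QF) (m' : ℕ) : ℕ → ℕ :=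
  Nat.rec (motive := fun _ => ℕ) 1 (fun n ih => Nat.lcm ih (lcdX (f n) m'))

theorem lcdX_eq {F : ℕ → QF} {f : ℕ → ℚ} {n : ℕ} (h : ∀ i < n, Cq (F i) (f i)) :
    lcdX F n = lcd f n := by
  induction n with
  | zero => rfl
  | succ n ih =>
    change Nat.lcm (lcdX F n) (F n).d = Nat.lcm (lcd f n) (f n).den
    rw [ih (fun i hi => h i (Nat.lt_succ_of_lt hi)), (h n (Nat.lt_succ_self n)).1]

theorem lcd2X_eq {F : ℕ → ℕ → QF} {f : ℕ → ℕ → ℚ} {m' n : ℕ}
    (h : ∀ i < n, ∀ j < m', Cq (F i j) (f i j)) : lcd2X F m' n = lcd2 f m' n := by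
  induction n with
  | zero => rfl
  | succ n ih =>
    change Nat.lcm (lcd2X F m' n) (lcdX (F n) m') = Nat.lcm (lcd2 f m' n) (lcd (f n) m')
    rw [ih (fun i hi => h i (Nat.lt_succ_of_lt hi)), lcdX_eq (h n (Nat.lt_succ_self n))]

theorem tabG_congr {α : Type} {f g : ℕ → α} {n : ℕ} (h : ∀ i < n, f i = g i) :
    tabG f n = tabG g n := by
  rw [tabG_eq, tabG_eq]
  exact List.map_congr_left (fun i hi => h i (List.mem_range.1 hi))

/-- numerators of a non-negative function -/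
noncomputable def svX (f : ℕ → QF) (n : ℕ) : List ℕ := tabG (fun i => nPX (lcdX f n) (f i)) n

theorem svX_eq {F : ℕ → QF} {f : ℕ → ℚ} {n : ℕ} (h : ∀ i < n, Cq (F i) (f i)) :
    svX F n = svN f n := by
  rw [svX, svN, lcdX_eq h]
  exact tabG_congr (fun i hi => nPX_nmN _ (h i hi))

/-- rows of a matrix, positive parts -/
noncomputable def rwPX (f : ℕ → ℕ → QF) (L m' i : ℕ) : List ℕ := tabG (fun j => nPX L (f i j)) m'

/-- rows of a matrix, negative parts -/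
noncomputable def rwNX (f : ℕ → ℕ → QF) (L m' i : ℕ) : List ℕ := tabG (fun j => nNX L (f i j)) m'

/-- product of a rational matrix and a family of vectors of length `n` -/
noncomputable def mvX (f : ℕ → ℕ → QF) (m m' n K : ℕ) (A : ℕ → CV4) (t : ℕ) : CV4 :=
  mvF (rwPX f (lcd2X f m' m) m') (rwNX f (lcd2X f m' m) m') m n K A t

theorem matS_congr {P P' N N' : ℕ → List ℕ} {m : ℕ} (h1 : ∀ i < m, P i = P' i)
    (h2 : ∀ i < m, N i = N' i) : matS P N m = matS P' N' m := by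
  induction m with
  | zero => rfl
  | succ m ih =>
    change matS P N m + (smN (P m) + smN (N m)) = matS P' N' m + (smN (P' m) + smN (N' m))
    rw [ih (fun i hi => h1 i (Nat.lt_succ_of_lt hi)) (fun i hi => h2 i (Nat.lt_succ_of_lt hi)),
      h1 m (Nat.lt_succ_self m), h2 m (Nat.lt_succ_self m)]

theorem famS_congr {A A' : ℕ → CV4} {K : ℕ} (h : ∀ t < K, A t = A' t) :
    famS A K = famS A' K := by
  induction K with
  | zero => rfl
  | succ m ih =>
    change famS A m + sum4 (A m) = famS A' m + sum4 (A' m)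
    rw [ih (fun i hi => h i (Nat.lt_succ_of_lt hi)), h m (Nat.lt_succ_self m)]

theorem mvF_congr {P P' N N' : ℕ → List ℕ} {A A' : ℕ → CV4} {m m' K t : ℕ}
    (h1 : ∀ i < m, P i = P' i) (h2 : ∀ i < m, N i = N' i) (h3 : ∀ t < K, A t = A' t)
    (ht : t < K) : mvF P N m m' K A t = mvF P' N' m m' K A' t := by
  rw [mvF, mvF, matS_congr h1 h2, famS_congr h3, h3 t ht, mv4, mv4]
  congr 1
  all_goals
    refine tabG_congr (fun i hi => ?_)
    rw [h1 i hi, h2 i hi]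

theorem mvX_eq {F : ℕ → ℕ → QF} {f : ℕ → ℕ → ℚ} {m m' n K t : ℕ} {A A' : ℕ → CV4}
    (h : ∀ i < m, ∀ j < m', Cq (F i j) (f i j)) (h3 : ∀ t < K, A t = A' t) (ht : t < K) :
    mvX F m m' n K A t = mvR f m m' n K A' t := by
  rw [mvX, mvR, lcd2X_eq h]
  refine mvF_congr (fun i hi => ?_) (fun i hi => ?_) h3 ht
  · rw [rwPX, rwP]
    exact tabG_congr (fun j hj => nPX_eq _ (h i hi j hj))
  · rw [rwNX, rwN]
    exact tabG_congr (fun j hj => nNX_eq _ (h i hi j hj))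

/-- a complex number with rational parts -/
structure GX where
  /-- real part -/
  re : QF
  /-- imaginary part -/
  im : QF

/-- `x` is `z` in lowest terms -/
def Cg (x : GX) (z : GQ) : Prop := Cq x.re z.re ∧ Cq x.im z.im

/-- product -/
noncomputable def GX.mul (x y : GX) : GX :=
  ⟨(x.re.mul y.re).sub (x.im.mul y.im), (x.re.mul y.im).add (x.im.mul y.re)⟩

/-- product with a rational number -/
noncomputable def GX.sc (q : QF) (x : GX) : GX := ⟨q.mul x.re, q.mul x.im⟩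

/-- sum -/
noncomputable def GX.add (x y : GX) : GX := ⟨x.re.add y.re, x.im.add y.im⟩

theorem Cg_mul {x y : GX} {z w : GQ} (hx : Cg x z) (hy : Cg y w) : Cg (x.mul y) (z.mul w) :=
  ⟨Cq_sub (Cq_mul hx.1 hy.1) (Cq_mul hx.2 hy.2), Cq_add (Cq_mul hx.1 hy.2) (Cq_mul hx.2 hy.1)⟩

theorem Cg_sc {x : GX} {z : GQ} {q : QF} {a : ℚ} (hq : Cq q a) (hx : Cg x z) :
    Cg (x.sc q) (z.sc a) :=
  ⟨Cq_mul hq hx.1, Cq_mul hq hx.2⟩

theorem Cg_add {x y : GX} {z w : GQ} (hx : Cg x z) (hy : Cg y w) : Cg (x.add y) (z.add w) :=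
  ⟨Cq_add hx.1 hy.1, Cq_add hx.2 hy.2⟩

/-- finite sums -/
noncomputable def smGX (f : ℕ → GX) : ℕ → GX :=
  Nat.rec (motive := fun _ => GX) ⟨qn 0, qn 0⟩ (fun n ih => ih.add (f n))

theorem Cg_sm {F : ℕ → GX} {f : ℕ → GQ} {n : ℕ} (h : ∀ i < n, Cg (F i) (f i)) :
    Cg (smGX F n) (smG f n) := by
  induction n with
  | zero => exact ⟨Cq_zero, Cq_zero⟩
  | succ n ih => exact Cg_add (ih (fun i hi => h i (Nat.lt_succ_of_lt hi))) (h n (Nat.lt_succ_self n))

/-- common denominator of a family -/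
noncomputable def lcdCX (f : ℕ → ℕ → GX) (K n : ℕ) : ℕ :=
  Nat.lcm (lcd2X (fun i t => (f i t).re) K n) (lcd2X (fun i t => (f i t).im) K n)

/-- a family of vectors -/
noncomputable def fam4X (f : ℕ → ℕ → GX) (K n t : ℕ) : CV4 :=
  ⟨tabG (fun i => nPX (lcdCX f K n) (f i t).re) n, tabG (fun i => nNX (lcdCX f K n) (f i t).re) n,
    tabG (fun i => nPX (lcdCX f K n) (f i t).im) n, tabG (fun i => nNX (lcdCX f K n) (f i t).im) n⟩

theorem lcdCX_eq {F : ℕ → ℕ → GX} {f : ℕ → ℕ → GQ} {K n : ℕ}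
    (h : ∀ i < n, ∀ t < K, Cg (F i t) (f i t)) : lcdCX F K n = lcdC f K n := by
  rw [lcdCX, lcdC, lcd2X_eq (fun i hi t ht => (h i hi t ht).1),
    lcd2X_eq (fun i hi t ht => (h i hi t ht).2)]

theorem fam4X_eq {F : ℕ → ℕ → GX} {f : ℕ → ℕ → GQ} {K n t : ℕ}
    (h : ∀ i < n, ∀ t < K, Cg (F i t) (f i t)) (ht : t < K) : fam4X F K n t = fam4 f K n t := by
  rw [fam4X, fam4, lcdCX_eq h]
  congr 1
  · exact tabG_congr (fun i hi => nPX_eq _ (h i hi t ht).1)
  · exact tabG_congr (fun i hi => nNX_eq _ (h i hi t ht).1)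
  · exact tabG_congr (fun i hi => nPX_eq _ (h i hi t ht).2)
  · exact tabG_congr (fun i hi => nNX_eq _ (h i hi t ht).2)

/-- a fraction -/
noncomputable def zq (z : ℤ) (d : ℕ) : QF := nrm (zP z 1) (zN z 1) d

theorem Cq_zq (z : ℤ) {d : ℕ} (hd : 0 < d) : Cq (zq z d) (mkRat z d) := by
  refine Cq_nrm hd ?_
  have h1 : ((zP z 1 : ℕ) : ℤ) - ((zN z 1 : ℕ) : ℤ) = z := by
    rw [zPN]
    push_cast
    ring
  have h2 : ((zP z 1 : ℕ) : ℚ) - ((zN z 1 : ℕ) : ℚ) = (z : ℚ) := by exact_mod_cast h1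
  have h3 : (d : ℚ) ≠ 0 := by exact_mod_cast hd.ne'
  rw [h2, Rat.mkRat_eq_div]
  field_simp

/-- a rational number -/
noncomputable def qq (q : ℚ) : QF := ⟨q.den, 0, 1⟩

/-- the fast form of a rational number -/
noncomputable def ofQ (q : ℚ) : QF := ⟨zP q.num 1, zN q.num 1, q.den⟩

theorem Cq_ofQ (q : ℚ) : Cq (ofQ q) q := by
  refine ⟨rfl, ?_, ?_⟩
  · change zP q.num 1 = _
    rw [zP_toNat, mul_one]
  · change zN q.num 1 = _
    rw [zN_toNat, mul_one]

/-! the functionals -/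

/-- the product in the functionals; `s` is the exponent -/
noncomputable def prX (re im : QF) : ℕ → GX :=
  Nat.rec (motive := fun _ => GX) ⟨qn 1, qn 0⟩
    (fun n ih => ih.mul ⟨re.add (qn (Nat.add 2 n)), im⟩)

/-- the coefficient of the functionals -/
noncomputable def mcX (n r : ℕ) : QF :=
  nrm (Nat.choose (Nat.succ n) (Nat.mul 2 r)) 0
    (Nat.mul (Nat.pow 2 (Nat.sub (Nat.succ n) (Nat.mul 2 r))) (Nat.factorial (Nat.succ n)))

/-- the functionals -/
noncomputable def muX (re im : QF) (n r : ℕ) : GX := (prX re im n).sc (mcX n r)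

/-- the coefficients of the inner function -/
noncomputable def phX (re im : QF) (D : ℕ) (p : ℕ → ℕ → QF) (l r : ℕ) : GX :=
  Nat.rec (motive := fun _ => GX)
    ((GX.sc (qn 2) ⟨((qn 1).add re).div ((((qn 1).add re).mul ((qn 1).add re)).add (im.mul im)),
      ((qn 0).sub im).div ((((qn 1).add re).mul ((qn 1).add re)).add (im.mul im))⟩).mul
        (muX re im 0 r))
    (fun l _ => smGX (fun n => (muX re im n r).sc (p n l)) D) l

section func

variable {re im : QF} {s : GQ} (hre : Cq re s.re) (him : Cq im s.im)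

include hre him in
theorem Cg_pr (n : ℕ) : Cg (prX re im n) (prQ s n) := by
  induction n with
  | zero => exact ⟨Cq_one, Cq_zero⟩
  | succ n ih =>
    refine Cg_mul ih ⟨?_, him⟩
    refine (Cq_add hre (Cq_qn (Nat.add 2 n))).cast ?_
    change s.re + ((2 + n : ℕ) : ℚ) = _
    push_cast
    ring

theorem Cq_mc (n r : ℕ) : Cq (mcX n r) ((Nat.choose (n + 1) (2 * r) : ℚ)
    * (1 / 2) ^ (n + 1 - 2 * r) / (Nat.factorial (n + 1) : ℚ)) := by
  refine Cq_nrm (Nat.mul_pos (Nat.pow_pos (by norm_num)) (Nat.factorial_pos _)) ?_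
  change ((Nat.choose (n + 1) (2 * r) : ℕ) : ℚ) - ((0 : ℕ) : ℚ)
    = _ * ((2 ^ (n + 1 - 2 * r) * Nat.factorial (n + 1) : ℕ) : ℚ)
  have h1 : ((Nat.factorial (n + 1) : ℕ) : ℚ) ≠ 0 := by
    exact_mod_cast (Nat.factorial_pos _).ne'
  obtain ⟨k, hk⟩ : ∃ k, k = n + 1 - 2 * r := ⟨_, rfl⟩
  have h2 : ((1 : ℚ) / 2) ^ k * 2 ^ k = 1 := by
    rw [← mul_pow]
    norm_num
  rw [← hk]
  push_cast
  field_simp
  linear_combination (-(Nat.choose (n + 1) (2 * r) : ℚ)) * h2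

include hre him in
theorem Cg_mu (n r : ℕ) : Cg (muX re im n r) (muQ s n r) := Cg_sc (Cq_mc n r) (Cg_pr hre him n)

include hre him in
theorem Cg_ph (hs : 1 + s.re ≠ 0) {D : ℕ} {p : ℕ → ℕ → QF} {p' : ℕ → ℕ → ℚ}
    (hp : ∀ n < D, ∀ l, Cq (p n l) (p' n l)) (l r : ℕ) :
    Cg (phX re im D p l r) (phQ s D p' l r) := by
  rcases l with _ | l
  · have h1 : Cq ((qn 1).add re) (1 + s.re) := Cq_add Cq_one hre
    have h2 : Cq ((((qn 1).add re).mul ((qn 1).add re)).add (im.mul im))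
        ((1 + s.re) * (1 + s.re) + s.im * s.im) := Cq_add (Cq_mul h1 h1) (Cq_mul him him)
    have h3 : (1 + s.re) * (1 + s.re) + s.im * s.im ≠ 0 := by
      have := mul_self_pos.2 hs
      have := mul_self_nonneg s.im
      linarith
    have h4 : Cq ((qn 0).sub im) (-s.im) := by
      refine (Cq_sub Cq_zero him).cast ?_
      ring
    rw [phQ]
    refine Cg_mul (Cg_sc Cq_two ⟨Cq_div h1 h2 h3, Cq_div h4 h2 h3⟩) (Cg_mu hre him 0 r)
  · rw [phQ]
    exact Cg_sm (fun n hn => Cg_sc (hp n hn l) (Cg_mu hre him n r))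

end func

/-! the cross functional -/

section cross

variable (r b : QF) (D : ℕ) (p : ℕ → ℕ → QF) (J : ℕ)

/-- positive parts of a row of the kernel -/
noncomputable def pPoX (j : ℕ) : List ℕ := tabG (fun m => nPX (lcd2X p D D) (p j m)) D

/-- negative parts of a row of the kernel -/
noncomputable def pNeX (j : ℕ) : List ℕ := tabG (fun m => nNX (lcd2X p D D) (p j m)) D

/-- negative part of the cross function -/
noncomputable def cNeX (W : List ℕ) (l : ℕ) : List ℕ :=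
  tabG (fun j => dotN (pPoX D p j) (dropN (Nat.succ l) W)) D

/-- positive part of the cross function -/
noncomputable def cPoX (W : List ℕ) (l : ℕ) : List ℕ :=
  axN (lcd2X p D D) (takeN J (dropN (Nat.succ l) W))
    (tabG (fun j => dotN (pNeX D p j) (dropN (Nat.succ l) W)) D)

/-- numerators of the matrix -/
noncomputable def wwIX (W G : List ℕ) (l k : ℕ) : ℤ :=
  Int.subNatNat (Nat.add (dotN (cPoX D p J W l) (convN (cPoX D p J W k) J G))
      (dotN (cNeX D p W l) (convN (cNeX D p W k) J G)))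
    (Nat.add (dotN (convN (cNeX D p W k) J G) (cPoX D p J W l))
      (dotN (cNeX D p W l) (convN (cPoX D p J W k) J G)))

/-- numerators of the weights -/
noncomputable def wLX : List ℕ := svX (wX b) (Nat.succ (Nat.add D J))

/-- numerators of the moments -/
noncomputable def gLX : List ℕ := svX (gmX r b) (Nat.mul 2 J)

/-- the tail on the diagonal -/
noncomputable def tlX (th : ℚ) (l : ℕ) : QF :=
  (((ofQ (1 + 1 / th)).mul (gmX r b (Nat.mul 2 J))).mul
    (smX (fun l' => (qn 1).div (b.add (qn (Nat.add (Nat.succ l') J)))) (Nat.succ D))).mul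
    ((qn 1).div (b.add (qn (Nat.add (Nat.succ l) J))))

/-- denominator of the products -/
noncomputable def wwDX : ℕ :=
  Nat.mul (Nat.mul (lcd2X p D D) (lcdX (wX b) (Nat.succ (Nat.add D J))))
    (Nat.mul (Nat.mul (lcd2X p D D) (lcdX (wX b) (Nat.succ (Nat.add D J))))
      (lcdX (gmX r b) (Nat.mul 2 J)))

/-- entries of the matrix of the cross functional over the common denominator -/
noncomputable def wwEX (th : ℚ) (l k : ℕ) : ℤ :=
  Int.add (Int.mul (Int.mul (1 + th).num (Int.ofNat (lcdX (tlX r b D J th) (Nat.succ D))))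
      (bif Nat.ble l k then wwIX D p J (wLX b D J) (gLX r b J) l k
        else wwIX D p J (wLX b D J) (gLX r b J) k l))
    (bif Nat.beq l k then Int.mul (nmX (lcdX (tlX r b D J th) (Nat.succ D)) (tlX r b D J th l))
      (Int.ofNat (Nat.mul (1 + th).den (wwDX r b D p J))) else 0)

/-- denominator of the matrix of the cross functional -/
noncomputable def wwdX (th : ℚ) : ℕ :=
  Nat.mul (Nat.mul (1 + th).den (lcdX (tlX r b D J th) (Nat.succ D))) (wwDX r b D p J)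

end cross

section sound

variable {r b : QF} {r' b' : ℚ} (hr : Cq r r') (hb : Cq b b') (hb0 : 0 < b')
  {D : ℕ} {p : ℕ → ℕ → QF} {p' : ℕ → ℕ → ℚ} (hp : ∀ n < D, ∀ l < D, Cq (p n l) (p' n l)) (J : ℕ)

include hp in
theorem pPoX_eq {j : ℕ} (hj : j < D) : pPoX D p j = pPo D p' j := by
  rw [pPoX, pPo, lcd2X_eq hp]
  exact tabG_congr (fun m hm => by rw [nPX_eq _ (hp j hj m hm), toNat_nmr])

include hp in
theorem pNeX_eq {j : ℕ} (hj : j < D) : pNeX D p j = pNe D p' j := by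
  rw [pNeX, pNe, lcd2X_eq hp]
  exact tabG_congr (fun m hm => by rw [nNX_eq _ (hp j hj m hm), toNat_neg_nmr])

include hb hb0 in
theorem wLX_eq : wLX b D J = wNs b' D J := svX_eq (fun i _ => Cq_w hb hb0 i)

include hr hb hb0 in
theorem gLX_eq : gLX r b J = gNs r' b' J := svX_eq (fun i _ => Cq_gm hr hb hb0 i)

include hb hb0 hp in
theorem cNeX_eq (l : ℕ) : cNeX D p (wLX b D J) l = cNe b' D p' J l := by
  rw [cNeX, cNe, wLX_eq hb hb0]
  exact tabG_congr (fun j hj => by rw [pPoX_eq hp hj])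

include hb hb0 hp in
theorem cPoX_eq (l : ℕ) : cPoX D p J (wLX b D J) l = cPo b' D p' J l := by
  rw [cPoX, cPo, wLX_eq hb hb0, lcd2X_eq hp]
  congr 1
  exact tabG_congr (fun j hj => by rw [pNeX_eq hp hj])

include hr hb hb0 hp in
theorem wwIX_eq (l k : ℕ) : wwIX D p J (wLX b D J) (gLX r b J) l k = wwI r' b' D p' J l k := by
  rw [wwIX, wwI, cPoX_eq hb hb0 hp, cPoX_eq hb hb0 hp, cNeX_eq hb hb0 hp, cNeX_eq hb hb0 hp,
    gLX_eq hr hb hb0, vPo, vNe]

include hr hb hb0 in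
theorem Cq_tl (th : ℚ) (l : ℕ) : Cq (tlX r b D J th l) (tlQ r' b' D J th l) := by
  have h1 : ∀ l' : ℕ, Cq ((qn 1).div (b.add (qn (Nat.add (Nat.succ l') J))))
      (1 / (b' + l' + 1 + J)) := by
    intro l'
    refine (Cq_div Cq_one (Cq_bn hb _) (bn_pos hb0 _).ne').cast ?_
    change 1 / (b' + ((l' + 1 + J : ℕ) : ℚ)) = _
    push_cast
    congr 1
    ring
  have h2 := Cq_mul (Cq_mul (Cq_mul (Cq_ofQ (1 + 1 / th)) (Cq_gm hr hb hb0 (Nat.mul 2 J)))
    (Cq_sm (n := Nat.succ D) (fun l' _ => h1 l'))) (h1 l)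
  exact h2

include hr hb hb0 hp in
theorem wwDX_eq : wwDX r b D p J = wwD r' b' D p' J := by
  rw [wwDX, wwD, lcd2X_eq hp, lcdX_eq (fun i _ => Cq_w hb hb0 i),
    lcdX_eq (fun i _ => Cq_gm hr hb hb0 i)]

include hr hb hb0 hp in
theorem wwEX_eq (th : ℚ) {l k : ℕ} : wwEX r b D p J th l k = wwE r' b' D p' J th l k := by
  rw [wwEX, wwE, wwIX_eq hr hb hb0 hp, wwIX_eq hr hb hb0 hp, wwDX_eq hr hb hb0 hp,
    lcdX_eq (fun i _ => Cq_tl hr hb hb0 J th i), nmX_eq _ (Cq_tl hr hb hb0 J th l)]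

include hr hb hb0 hp in
theorem wwdX_eq (th : ℚ) : wwdX r b D p J th = (wwM r' b' D p' J th).den := by
  rw [wwdX, wwM, wwDX_eq hr hb hb0 hp, lcdX_eq (fun i _ => Cq_tl hr hb hb0 J th i)]

end sound

/-! positivity -/

/-- the Gaussian integer -/
noncomputable def _root_.Pool.Agent.Helper65.HR2.G4.toZ (x : G4) : GZ := ⟨Int.subNatNat x.a x.b, Int.subNatNat x.c x.d⟩

/-- the reduced form of the differences `p - n`, `q - m` -/
noncomputable def mkG (p n q m : ℕ) : G4 :=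
  frc (fun a => frc (fun b => frc (fun c => frc (fun d => G4.mk a b c d) (Nat.sub m q))
    (Nat.sub q m)) (Nat.sub n p)) (Nat.sub p n)

theorem snn_sub (p n : ℕ) : Int.subNatNat (p - n) (n - p) = (p : ℤ) - (n : ℤ) := by
  rw [Int.subNatNat_eq_coe]
  omega

theorem mkG_toZ (p n q m : ℕ) : (mkG p n q m).toZ = ⟨(p : ℤ) - n, (q : ℤ) - m⟩ := by
  rw [mkG, frc_eq, frc_eq, frc_eq, frc_eq, G4.toZ]
  congr 1
  · exact snn_sub p n
  · exact snn_sub q m

/-- an entry of the Schur complement -/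
noncomputable def schP (h : ℕ) (a m b : G4) : G4 :=
  G4.rec (motive := fun _ => G4) (fun a1 a2 a3 a4 => G4.rec (motive := fun _ => G4)
    (fun m1 m2 m3 m4 => G4.rec (motive := fun _ => G4) (fun b1 b2 b3 b4 =>
      mkG (Nat.add (Nat.mul h m1) (Nat.add (Nat.add (Nat.mul a1 b2) (Nat.mul a2 b1))
            (Nat.add (Nat.mul a3 b4) (Nat.mul a4 b3))))
        (Nat.add (Nat.mul h m2) (Nat.add (Nat.add (Nat.mul a1 b1) (Nat.mul a2 b2))
            (Nat.add (Nat.mul a3 b3) (Nat.mul a4 b4))))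
        (Nat.add (Nat.mul h m3) (Nat.add (Nat.add (Nat.mul a1 b4) (Nat.mul a2 b3))
            (Nat.add (Nat.mul a3 b1) (Nat.mul a4 b2))))
        (Nat.add (Nat.mul h m4) (Nat.add (Nat.add (Nat.mul a1 b3) (Nat.mul a2 b4))
            (Nat.add (Nat.mul a3 b2) (Nat.mul a4 b1))))) b) m) a

theorem schP_toZ (h : ℕ) (a m b : G4) :
    (schP h a m b).toZ = schZ (h : ℤ) a.toZ m.toZ b.toZ := by
  obtain ⟨a1, a2, a3, a4⟩ := a
  obtain ⟨m1, m2, m3, m4⟩ := m
  obtain ⟨b1, b2, b3, b4⟩ := b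
  rw [schP]
  refine (mkG_toZ _ _ _ _).trans ?_
  rw [schZ, G4.toZ, G4.toZ, G4.toZ]
  simp only [Int.subNatNat_eq_coe]
  congr 1
  · change (((h * m1 + ((a1 * b2 + a2 * b1) + (a3 * b4 + a4 * b3)) : ℕ) : ℤ)
      - ((h * m2 + ((a1 * b1 + a2 * b2) + (a3 * b3 + a4 * b4)) : ℕ) : ℤ))
      = (h : ℤ) * ((m1 : ℤ) - m2) - (((a1 : ℤ) - a2) * ((b1 : ℤ) - b2)
        + ((a3 : ℤ) - a4) * ((b3 : ℤ) - b4))
    push_cast
    ring
  · change (((h * m3 + ((a1 * b4 + a2 * b3) + (a3 * b1 + a4 * b2)) : ℕ) : ℤ)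
      - ((h * m4 + ((a1 * b3 + a2 * b4) + (a3 * b2 + a4 * b1)) : ℕ) : ℤ))
      = (h : ℤ) * ((m3 : ℤ) - m4) - (((a1 : ℤ) - a2) * ((b3 : ℤ) - b4)
        - ((a3 : ℤ) - a4) * ((b1 : ℤ) - b2))
    push_cast
    ring

/-- a row of the Schur complement -/
noncomputable def zipP (h : ℕ) (a : G4) : List G4 → List G4 → List G4 :=
  List.rec (motive := fun _ => List G4 → List G4) (fun _ => [])
    (fun m _ ih v => List.rec (motive := fun _ => List G4) []
      (fun b t _ => schP h a m b :: ih t) v)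

theorem zipP_toZ (h : ℕ) (a : G4) (row : List G4) : ∀ v : List G4,
    (zipP h a row v).map G4.toZ = zipS (h : ℤ) a.toZ (row.map G4.toZ) (v.map G4.toZ) := by
  induction row with
  | nil => intro v; rfl
  | cons m row ih =>
    intro v
    rcases v with _ | ⟨b, v⟩
    · rfl
    · change (schP h a m b :: zipP h a row v).map G4.toZ
        = schZ (h : ℤ) a.toZ m.toZ b.toZ :: zipS (h : ℤ) a.toZ (row.map G4.toZ) (v.map G4.toZ)
      rw [List.map_cons, ih v, schP_toZ]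

/-- the Schur complement -/
noncomputable def schPL (h : ℕ) : List G4 → List (List G4) → List (List G4) :=
  List.rec (motive := fun _ => List (List G4) → List (List G4)) (fun _ => [])
    (fun a u ih rows => List.rec (motive := fun _ => List (List G4)) []
      (fun row rest _ => zipP h a row (a :: u) :: ih rest) rows)

theorem schPL_toZ (h : ℕ) (u : List G4) : ∀ rows : List (List G4),
    (schPL h u rows).map (List.map G4.toZ)
      = schL (h : ℤ) (u.map G4.toZ) (rows.map (List.map G4.toZ)) := by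
  induction u with
  | nil => intro rows; rfl
  | cons a u ih =>
    intro rows
    rcases rows with _ | ⟨row, rest⟩
    · rfl
    · change (zipP h a row (a :: u) :: schPL h u rest).map (List.map G4.toZ)
        = zipS (h : ℤ) a.toZ (row.map G4.toZ) ((a :: u).map G4.toZ)
          :: schL (h : ℤ) (u.map G4.toZ) (rest.map (List.map G4.toZ))
      rw [List.map_cons, ih rest, zipP_toZ]

/-- the check, for a list of rows of the upper triangle -/
noncomputable def psdP : ℕ → List (List G4) → Bool :=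
  Nat.rec (motive := fun _ => List (List G4) → Bool) (fun _ => true)
    (fun _ ih rows => List.rec (motive := fun _ => Bool) false
      (fun row rest _ => List.rec (motive := fun _ => Bool) false
        (fun h u _ => Bool.and (Bool.and (Nat.beq h.b 0) (Nat.ble 1 h.a))
          (ih (schPL h.a u rest))) row) rows)

theorem psdP_psdL (n : ℕ) : ∀ rows : List (List G4), psdP n rows = true →
    psdL n (rows.map (List.map G4.toZ)) = true := by
  induction n with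
  | zero => intro rows _; rfl
  | succ n ih =>
    intro rows h
    rcases rows with _ | ⟨row, rest⟩
    · exact absurd h (by intro h'; exact Bool.noConfusion h')
    · rcases row with _ | ⟨x, u⟩
      · exact absurd h (by intro h'; exact Bool.noConfusion h')
      · change Bool.and (Bool.and (Nat.beq x.b 0) (Nat.ble 1 x.a))
          (psdP n (schPL x.a u rest)) = true at h
        obtain ⟨h1, h2⟩ := (Bool.and_eq_true _ _).mp h
        obtain ⟨h3, h4⟩ := (Bool.and_eq_true _ _).mp h1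
        have h5 : x.b = 0 := Nat.eq_of_beq_eq_true h3
        have h6 : 1 ≤ x.a := Nat.le_of_ble_eq_true h4
        have h7 : x.toZ.re = (x.a : ℤ) := by
          rw [G4.toZ, h5]
          simp only
          rw [Int.subNatNat_eq_coe]
          omega
        change Bool.and (decide (0 < x.toZ.re)) (psdL n (schL x.toZ.re (u.map G4.toZ)
          (rest.map (List.map G4.toZ)))) = true
        rw [h7, ← schPL_toZ, ih _ h2]
        have h8 : (0 : ℤ) < (x.a : ℤ) := by omega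
        rw [decide_eq_true h8]
        rfl

/-- a row of the upper triangle -/
noncomputable def rowP (f : ℕ → ℕ → G4) (K i : ℕ) : List G4 :=
  Nat.rec (motive := fun _ => List G4 → List G4) (fun acc => acc)
    (fun j ih acc => ih (bif Nat.ble i j then f i j :: acc else acc)) K []

/-- the upper triangle -/
noncomputable def triP (f : ℕ → ℕ → G4) (K : ℕ) : List (List G4) := tabG (rowP f K) K

theorem rowP_toZ (f : ℕ → ℕ → G4) (K i : ℕ) :
    (rowP f K i).map G4.toZ = rowU (fun i j => (f i j).toZ) K i := by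
  have h : ∀ (n : ℕ) (acc : List G4), (Nat.rec (motive := fun _ => List G4 → List G4)
      (fun acc => acc) (fun j ih acc => ih (bif Nat.ble i j then f i j :: acc else acc)) n acc
        : List G4).map G4.toZ = (Nat.rec (motive := fun _ => List GZ → List GZ)
      (fun acc => acc) (fun j ih acc => ih (bif Nat.ble i j then (f i j).toZ :: acc else acc)) n
        (acc.map G4.toZ) : List GZ) := by
    intro n
    induction n with
    | zero => intro acc; rfl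
    | succ n ih =>
      intro acc
      refine (ih _).trans ?_
      change _ = (Nat.rec (motive := fun _ => List GZ → List GZ)
        (fun acc => acc) (fun j ih acc => ih (bif Nat.ble i j then (f i j).toZ :: acc else acc)) n
          (bif Nat.ble i n then (f i n).toZ :: acc.map G4.toZ else acc.map G4.toZ) : List GZ)
      congr 1
      cases Nat.ble i n
      · rfl
      · rfl
  exact h K []

theorem triP_toZ (f : ℕ → ℕ → G4) (K : ℕ) :
    (triP f K).map (List.map G4.toZ) = triU (fun i j => (f i j).toZ) K := by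
  rw [triP, triU, tabG_eq, tabG_eq, List.map_map]
  exact List.map_congr_left (fun i _ => rowP_toZ f K i)

/-- twice the Hermitian part -/
noncomputable def hzP (z : ℕ → ℕ → G4) (i j : ℕ) : G4 :=
  G4.rec (motive := fun _ => G4) (fun a b c d => G4.rec (motive := fun _ => G4)
    (fun a' b' c' d' => mkG (Nat.add a a') (Nat.add b b') (Nat.add c d') (Nat.add d c'))
      (z j i)) (z i j)

theorem hzP_toZ (z : ℕ → ℕ → G4) (i j : ℕ) : (hzP z i j).toZ = hz4 z i j := by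
  have e : hzP z i j = mkG ((z i j).a + (z j i).a) ((z i j).b + (z j i).b)
    ((z i j).c + (z j i).d) ((z i j).d + (z j i).c) := rfl
  have e2 : hz4 z i j = ⟨Int.subNatNat ((z i j).a + (z j i).a) ((z i j).b + (z j i).b),
      Int.subNatNat ((z i j).c + (z j i).d) ((z i j).d + (z j i).c)⟩ := rfl
  rw [e, e2, mkG_toZ, Int.subNatNat_eq_coe, Int.subNatNat_eq_coe]

/-- combination of four matrices -/
noncomputable def combP (x0 x1 x2 x3 : ℕ) (A B C D : G4) : G4 :=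
  mkG (Nat.add (Nat.mul x0 A.a) (Nat.add (Nat.mul x1 B.b) (Nat.add (Nat.mul x2 C.b)
      (Nat.mul x3 D.b))))
    (Nat.add (Nat.mul x0 A.b) (Nat.add (Nat.mul x1 B.a) (Nat.add (Nat.mul x2 C.a)
      (Nat.mul x3 D.a))))
    (Nat.add (Nat.mul x0 A.c) (Nat.add (Nat.mul x1 B.d) (Nat.add (Nat.mul x2 C.d)
      (Nat.mul x3 D.d))))
    (Nat.add (Nat.mul x0 A.d) (Nat.add (Nat.mul x1 B.c) (Nat.add (Nat.mul x2 C.c)
      (Nat.mul x3 D.c))))

theorem combP_toZ (x0 x1 x2 x3 : ℕ) (A B C D : G4) :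
    (combP x0 x1 x2 x3 A B C D).toZ
      = comb4Z (x0 : ℤ) (x1 : ℤ) (x2 : ℤ) (x3 : ℤ) A.toZ B.toZ C.toZ D.toZ := by
  obtain ⟨a1, a2, a3, a4⟩ := A
  obtain ⟨b1, b2, b3, b4⟩ := B
  obtain ⟨c1, c2, c3, c4⟩ := C
  obtain ⟨d1, d2, d3, d4⟩ := D
  rw [combP]
  refine (mkG_toZ _ _ _ _).trans ?_
  rw [comb4Z, G4.toZ, G4.toZ, G4.toZ, G4.toZ]
  simp only [Int.subNatNat_eq_coe]
  congr 1
  · change (((x0 * a1 + (x1 * b2 + (x2 * c2 + x3 * d2)) : ℕ) : ℤ)
      - ((x0 * a2 + (x1 * b1 + (x2 * c1 + x3 * d1)) : ℕ) : ℤ))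
      = (x0 : ℤ) * ((a1 : ℤ) - a2) - ((x1 : ℤ) * ((b1 : ℤ) - b2) + ((x2 : ℤ) * ((c1 : ℤ) - c2)
        + (x3 : ℤ) * ((d1 : ℤ) - d2)))
    push_cast
    ring
  · change (((x0 * a3 + (x1 * b4 + (x2 * c4 + x3 * d4)) : ℕ) : ℤ)
      - ((x0 * a4 + (x1 * b3 + (x2 * c3 + x3 * d3)) : ℕ) : ℤ))
      = (x0 : ℤ) * ((a3 : ℤ) - a4) - ((x1 : ℤ) * ((b3 : ℤ) - b4) + ((x2 : ℤ) * ((c3 : ℤ) - c4)
        + (x3 : ℤ) * ((d3 : ℤ) - d4)))
    push_cast
    ring

/-- check of positivity of `A - E (B + S C + M D)`, for non-negative numbers -/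
noncomputable def chkP (K : ℕ) (A B C D : ℕ → ℕ → G4) (E S M : ℚ) : Bool :=
  Bool.and (Bool.and (Nat.beq (zN E.num 1) 0) (Bool.and (Nat.beq (zN S.num 1) 0)
    (Nat.beq (zN M.num 1) 0)))
  (psdP K (triP (fun i j => combP
    (Nat.mul E.den (Nat.mul S.den M.den))
    (Nat.mul (zP E.num 1) (Nat.mul S.den M.den))
    (Nat.mul (zP E.num 1) (Nat.mul (zP S.num 1) M.den))
    (Nat.mul (zP E.num 1) (Nat.mul (zP M.num 1) S.den)) (A i j) (B i j) (C i j) (D i j)) K))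

theorem zP_of {z : ℤ} (h : zN z 1 = 0) : ((zP z 1 : ℕ) : ℤ) = z := by
  have := zPN z 1
  rw [h] at this
  push_cast at this
  linarith

theorem chkP_chkZ {K : ℕ} {A B C D : ℕ → ℕ → G4} {A' B' C' D' : ℕ → ℕ → GZ} {E S M : ℚ}
    (h : chkP K A B C D E S M = true) (hA : ∀ i j, (A i j).toZ = A' i j)
    (hB : ∀ i j, (B i j).toZ = B' i j) (hC : ∀ i j, (C i j).toZ = C' i j)
    (hD : ∀ i j, (D i j).toZ = D' i j) : chkZ K A' B' C' D' E S M = true := by
  rw [chkP] at h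
  obtain ⟨h1, h2⟩ := (Bool.and_eq_true _ _).mp h
  obtain ⟨h3, h4⟩ := (Bool.and_eq_true _ _).mp h1
  obtain ⟨h5, h6⟩ := (Bool.and_eq_true _ _).mp h4
  have hE := zP_of (Nat.eq_of_beq_eq_true h3)
  have hS := zP_of (Nat.eq_of_beq_eq_true h5)
  have hM := zP_of (Nat.eq_of_beq_eq_true h6)
  have h7 := psdP_psdL _ _ h2
  rw [triP_toZ] at h7
  rw [chkZ, ← h7]
  congr 2
  funext i j
  rw [combP_toZ, hA, hB, hC, hD]
  congr 1
  · change E.num * ((S.den * M.den : ℕ) : ℤ) = ((zP E.num 1 * (S.den * M.den) : ℕ) : ℤ)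
    push_cast
    rw [hE]
  · change E.num * (S.num * (M.den : ℤ)) = ((zP E.num 1 * (zP S.num 1 * M.den) : ℕ) : ℤ)
    push_cast
    rw [hE, hS]
  · change E.num * (M.num * (S.den : ℤ)) = ((zP E.num 1 * (zP M.num 1 * S.den) : ℕ) : ℤ)
    push_cast
    rw [hE, hM]

/-! the check -/

theorem fam4X_fun {F : ℕ → ℕ → GX} {f : ℕ → ℕ → GQ} {K n : ℕ}
    (h : ∀ i t, Cg (F i t) (f i t)) : fam4X F K n = fam4 f K n := by
  funext t
  rw [fam4X, fam4, lcdCX_eq (fun i _ t _ => h i t)]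
  congr 1
  · exact tabG_congr (fun i _ => nPX_eq _ (h i t).1)
  · exact tabG_congr (fun i _ => nNX_eq _ (h i t).1)
  · exact tabG_congr (fun i _ => nPX_eq _ (h i t).2)
  · exact tabG_congr (fun i _ => nNX_eq _ (h i t).2)

theorem mvX_fun {F : ℕ → ℕ → QF} {f : ℕ → ℕ → ℚ} {m m' n K : ℕ} {A : ℕ → CV4}
    (h : ∀ i j, Cq (F i j) (f i j)) : mvX F m m' n K A = mvR f m m' n K A := by
  have e1 : rwPX F (lcd2 f m' m) m' = rwP f (lcd2 f m' m) m' := by
    funext i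
    exact tabG_congr (fun j _ => nPX_eq _ (h i j))
  have e2 : rwNX F (lcd2 f m' m) m' = rwN f (lcd2 f m' m) m' := by
    funext i
    exact tabG_congr (fun j _ => nNX_eq _ (h i j))
  funext t
  rw [mvX, mvR, lcd2X_eq (fun i _ j _ => h i j), e1, e2]

namespace AF

/-- the real part of the exponent -/
noncomputable def rX (X : AP2) : QF := zq X.P.s1 X.P.sd

/-- the imaginary part of the exponent -/
noncomputable def iX (X : AP2) : QF := zq X.P.s2 X.P.sd

/-- the parameter -/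
noncomputable def bX (X : AP2) : QF := nrm X.P.bn 0 X.P.bd

/-- the kernel -/
noncomputable def pX (X : AP2) (n l : ℕ) : QF := zq ((X.P.p.getD n []).getD l 0) X.P.pd

/-- the test vectors -/
noncomputable def TX (X : AP2) (n r : ℕ) : GX :=
  ⟨zq ((X.P.T.getD n []).getD r (0, 0)).1 X.P.td, zq ((X.P.T.getD n []).getD r (0, 0)).2 X.P.td⟩

/-- the inverse of the scale of the form -/
noncomputable def fX (X : AP2) (r t : ℕ) : QF :=
  ((pochX (bX X) (Nat.add (Nat.mul 2 r) (Nat.mul 2 t))).mul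
    (qn (Nat.pow (Nat.mul 2 X.P.sd) (Nat.add r t)))).div
    ((qn X.P.N).mul (((bX X).mul ((bX X).add (qn 1))).mul ((bX X).add (qn 2))))

/-- an integer -/
noncomputable def zi (z : ℤ) : QF := ⟨zP z 1, zN z 1, 1⟩

/-- the form -/
noncomputable def QX (X : AP2) (r t : ℕ) : GX :=
  GX.sc (fX X r t) ⟨zi ((X.P.M.getD r []).getD t (0, 0)).1, zi ((X.P.M.getD r []).getD t (0, 0)).2⟩

/-- the moments -/
noncomputable def gF (X : AP2) (i j : ℕ) : QF := gmX (rX X) (bX X) (Nat.add i j)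

/-- the Gram matrix -/
noncomputable def m0F (X : AP2) (i j : ℕ) : QF :=
  mmX (stX (rX X) (bX X) (dsX1 (rX X) (bX X))) (qn 0) i j

/-- the Gram matrix -/
noncomputable def m1F (X : AP2) (i j : ℕ) : QF :=
  mmX (stX (rX X) (bX X) (dsX2 (rX X) (bX X))) (qn 0) i j

/-- the Gram matrix -/
noncomputable def m2F (X : AP2) (i j : ℕ) : QF := mmX (stX2 (rX X) (bX X)) (qn 1) i j

/-- differences of the series -/
noncomputable def s0F (X : AP2) (l n : ℕ) : QF :=
  (ssX1 (rX X) (bX X) n l).sub (ssX1 (rX X) (bX X) n (Nat.succ l))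

/-- differences of the series -/
noncomputable def s1F (X : AP2) (l n : ℕ) : QF :=
  (ssX2 (rX X) (bX X) n l).sub (ssX2 (rX X) (bX X) n (Nat.succ l))

/-- the kernel, transposed -/
noncomputable def ptF (X : AP2) (l n : ℕ) : QF := pX X n l

/-- weights -/
noncomputable def w1F (X : AP2) (l m : ℕ) : QF := wX (bX X) (Nat.succ (Nat.add l m))

/-- weights -/
noncomputable def w0F (X : AP2) (l m : ℕ) : QF := wX (bX X) (Nat.add l m)

/-- the functionals -/
noncomputable def muF (X : AP2) : ℕ → ℕ → GX := muX (rX X) (iX X)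

/-- the inner function -/
noncomputable def phF (X : AP2) : ℕ → ℕ → GX := phX (rX X) (iX X) X.P.D (pX X)

/-- denominators -/
noncomputable def dT (X : AP2) : ℕ := lcdCX (TX X) X.K X.N

/-- denominators -/
noncomputable def dmu (X : AP2) : ℕ := lcdCX (muF X) X.K X.N

/-- denominators -/
noncomputable def dP (X : AP2) : ℕ := lcdCX (phF X) X.K (X.P.D + 1)

/-- denominators -/
noncomputable def dG (X : AP2) : ℕ := Nat.mul (lcd2X (gF X) X.N X.N) (dT X)

/-- denominators -/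
noncomputable def dU (X : AP2) : ℕ := Nat.mul (lcd2X (ptF X) X.P.D X.P.D) (dG X)

/-- denominators -/
noncomputable def dM0 (X : AP2) : ℕ := Nat.mul (lcd2X (m0F X) X.N X.N) (dT X)

/-- denominators -/
noncomputable def dM1 (X : AP2) : ℕ := Nat.mul (lcd2X (m1F X) X.N X.N) (dT X)

/-- denominators -/
noncomputable def dM2 (X : AP2) : ℕ := Nat.mul (lcd2X (m2F X) X.N X.N) (dT X)

/-- denominators -/
noncomputable def dS0 (X : AP2) : ℕ := Nat.mul (lcd2X (s0F X) X.N (X.P.D + 1)) (dT X)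

/-- denominators -/
noncomputable def dS1 (X : AP2) : ℕ := Nat.mul (lcd2X (s1F X) X.N (X.P.D + 1)) (dT X)

/-- denominators -/
noncomputable def dW (X : AP2) : ℕ := Nat.mul (lcd2X (w1F X) X.P.D (X.P.D + 1)) (dU X)

/-- denominators -/
noncomputable def dD (X : AP2) : ℕ := Nat.mul (lcd2X (w0F X) (X.P.D + 1) (X.P.D + 1)) (dP X)

/-- denominators -/
noncomputable def dC (X : AP2) : ℕ :=
  Nat.mul (wwdX (rX X) (bX X) X.P.D (pX X) X.P.J2 X.P.th) (dP X)

/-- denominator of the form -/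
noncomputable def dQ (X : AP2) : ℕ := lcdCX (QX X) X.K X.K

/-- test vectors -/
noncomputable def T4 (X : AP2) : ℕ → CV4 := fam4X (TX X) X.K X.N

/-- the functionals -/
noncomputable def mu4 (X : AP2) : ℕ → CV4 := fam4X (muF X) X.K X.N

/-- the inner function -/
noncomputable def P4 (X : AP2) : ℕ → CV4 := fam4X (phF X) X.K (X.P.D + 1)

/-- moments of the test vectors -/
noncomputable def G4f (X : AP2) : ℕ → CV4 := mvX (gF X) X.N X.N X.N X.K (T4 X)

/-- projections -/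
noncomputable def U4 (X : AP2) : ℕ → CV4 := mvX (ptF X) X.P.D X.P.D X.N X.K (G4f X)

/-- Gram matrix -/
noncomputable def M04 (X : AP2) : ℕ → CV4 := mvX (m0F X) X.N X.N X.N X.K (T4 X)

/-- Gram matrix -/
noncomputable def M14 (X : AP2) : ℕ → CV4 := mvX (m1F X) X.N X.N X.N X.K (T4 X)

/-- Gram matrix -/
noncomputable def M24 (X : AP2) : ℕ → CV4 := mvX (m2F X) X.N X.N X.N X.K (T4 X)

/-- differences of the series -/
noncomputable def S04 (X : AP2) : ℕ → CV4 := mvX (s0F X) (X.P.D + 1) X.N X.N X.K (T4 X)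

/-- differences of the series -/
noncomputable def S14 (X : AP2) : ℕ → CV4 := mvX (s1F X) (X.P.D + 1) X.N X.N X.K (T4 X)

/-- weighted projections -/
noncomputable def W4 (X : AP2) : ℕ → CV4 := mvX (w1F X) (X.P.D + 1) X.P.D X.P.D X.K (U4 X)

/-- its main part -/
noncomputable def D4 (X : AP2) : ℕ → CV4 :=
  mvX (w0F X) (X.P.D + 1) (X.P.D + 1) (X.P.D + 1) X.K (P4 X)

/-- rows of the cross matrix -/
noncomputable def wP4 (X : AP2) (l : ℕ) : List ℕ :=
  tabG (fun k => zP (wwEX (rX X) (bX X) X.P.D (pX X) X.P.J2 X.P.th l k) 1) (Nat.succ X.P.D)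

/-- rows of the cross matrix -/
noncomputable def wN4 (X : AP2) (l : ℕ) : List ℕ :=
  tabG (fun k => zN (wwEX (rX X) (bX X) X.P.D (pX X) X.P.J2 X.P.th l k) 1) (Nat.succ X.P.D)

/-- its cross part -/
noncomputable def C4 (X : AP2) : ℕ → CV4 :=
  mvF (wP4 X) (wN4 X) (X.P.D + 1) (X.P.D + 1) X.K (P4 X)

/-- terms of the part independent of the constants -/
noncomputable def lA (X : AP2) : List TZ4 :=
  [⟨2, Nat.mul (dT X) (dmu X), ipF4 X.K X.N (T4 X) (mu4 X)⟩,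
    ⟨-1, Nat.mul (dT X) (dG X), ipF4 X.K X.N (T4 X) (G4f X)⟩,
    ⟨-(X.P.Ehi ^ 2 / X.P.tau), Nat.mul (dP X) (dC X), ipF4 X.K (X.P.D + 1) (P4 X) (C4 X)⟩,
    ⟨-1, dQ X, fun r t => ⟨nPX (dQ X) (QX X r t).re, nNX (dQ X) (QX X r t).re,
      nPX (dQ X) (QX X r t).im, nNX (dQ X) (QX X r t).im⟩⟩]

/-- terms of the coefficient of the main constant -/
noncomputable def lB (X : AP2) : List TZ4 :=
  [⟨1, Nat.mul (dP X) (dD X), ipF4 X.K (X.P.D + 1) (P4 X) (D4 X)⟩,
    ⟨2, Nat.mul (dP X) (dS0 X), ipF4 X.K (X.P.D + 1) (P4 X) (S04 X)⟩,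
    ⟨-2, Nat.mul (dP X) (dW X), ipF4 X.K (X.P.D + 1) (P4 X) (W4 X)⟩,
    ⟨X.ck, Nat.mul (dT X) (dM0 X), ipF4 X.K X.N (T4 X) (M04 X)⟩,
    ⟨X.ck, Nat.mul (dU X) (dW X), ipF4 X.K X.P.D (U4 X) (fun t => tl4 (W4 X t))⟩,
    ⟨-2 * X.ck, Nat.mul (dU X) (dS0 X), ipF4 X.K X.P.D (U4 X) (fun t => tl4 (S04 X t))⟩]

/-- terms of the coefficient of the main constant and the first series -/
noncomputable def lC (X : AP2) : List TZ4 :=
  [⟨2, Nat.mul (dP X) (dS1 X), ipF4 X.K (X.P.D + 1) (P4 X) (S14 X)⟩,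
    ⟨X.ck, Nat.mul (dT X) (dM1 X), ipF4 X.K X.N (T4 X) (M14 X)⟩,
    ⟨-2 * X.ck, Nat.mul (dU X) (dS1 X), ipF4 X.K X.P.D (U4 X) (fun t => tl4 (S14 X t))⟩]

/-- terms of the coefficient of the main constant and the second series -/
noncomputable def lD (X : AP2) : List TZ4 :=
  [⟨X.ck, Nat.mul (dT X) (dM2 X), ipF4 X.K X.N (T4 X) (M24 X)⟩]

/-- the common denominator -/
noncomputable def LL (X : AP2) : ℕ :=
  Nat.lcm (Nat.lcm (lcdT4 (lA X)) (lcdT4 (lB X))) (Nat.lcm (lcdT4 (lC X)) (lcdT4 (lD X)))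

/-- positivity at a corner -/
noncomputable def cc (X : AP2) (E S M : ℚ) : Bool :=
  Bool.and (Nat.ble 1 (LL X)) (chkP X.K (hzP (zsum4 (LL X) (lA X))) (hzP (zsum4 (LL X) (lB X)))
    (hzP (zsum4 (LL X) (lC X))) (hzP (zsum4 (LL X) (lD X))) E S M)

section sound

variable {X : AP2}

/-- the elementary conditions -/
def ok (X : AP2) : Prop :=
  0 < X.P.sd ∧ 0 < X.P.bd ∧ 0 < X.P.pd ∧ 0 < X.P.td ∧ 0 < X.P.N ∧ 0 < X.P.b ∧
    0 < X.P.b + 1 - 2 * X.P.s.re ∧ 1 + X.P.s.re ≠ 0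

variable (h : ok X)

include h

theorem hr : Cq (rX X) X.P.s.re := Cq_zq _ h.1

theorem hi : Cq (iX X) X.P.s.im := Cq_zq _ h.1

theorem hb : Cq (bX X) X.P.b := by
  refine Cq_nrm h.2.1 ?_
  have h3 : (X.P.bd : ℚ) ≠ 0 := by exact_mod_cast h.2.1.ne'
  rw [AP.b, Rat.mkRat_eq_div]
  push_cast
  field_simp
  ring

theorem hb0 : 0 < X.P.b := h.2.2.2.2.2.1

theorem hσ : 0 < X.P.b + 1 - 2 * X.P.s.re := h.2.2.2.2.2.2.1

theorem hp (n l : ℕ) : Cq (pX X n l) (X.P.pf n l) := Cq_zq _ h.2.2.1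

theorem hT (i t : ℕ) : Cg (TX X i t) (X.P.Tf i t) := ⟨Cq_zq _ h.2.2.2.1, Cq_zq _ h.2.2.2.1⟩

omit h in
theorem Cq_zi (z : ℤ) : Cq (zi z) (z : ℚ) := by
  refine ⟨?_, ?_, ?_⟩
  · change 1 = ((z : ℚ)).den
    rw [Rat.den_intCast]
  · change zP z 1 = ((z : ℚ)).num.toNat
    rw [Rat.num_intCast, zP_toNat, mul_one]
  · change zN z 1 = (-((z : ℚ)).num).toNat
    rw [Rat.num_intCast, zN_toNat, mul_one]

theorem hf (r t : ℕ) : Cq (fX X r t) (1 / X.fac2 r t) := by
  have hN : ((X.P.N : ℕ) : ℚ) ≠ 0 := by exact_mod_cast h.2.2.2.2.1.ne'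
  have hbp := hb0 h
  have h1 : X.P.b * (X.P.b + 1) * (X.P.b + 2) ≠ 0 := by positivity
  have h2 := Cq_div (Cq_mul (Cq_poch (hb h) (Nat.add (Nat.mul 2 r) (Nat.mul 2 t)))
    (Cq_qn (Nat.pow (Nat.mul 2 X.P.sd) (Nat.add r t)))) (Cq_mul (Cq_qn X.P.N)
    (Cq_mul (Cq_mul (hb h) (Cq_add (hb h) Cq_one)) (Cq_add (hb h) Cq_two)))
    (mul_ne_zero hN h1)
  refine h2.cast ?_
  change AP.pochQ X.P.b (2 * r + 2 * t) * (((2 * X.P.sd) ^ (r + t) : ℕ) : ℚ)
    / ((X.P.N : ℚ) * (X.P.b * (X.P.b + 1) * (X.P.b + 2))) = 1 / X.fac2 r t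
  have h3 : AP.pochQ X.P.b (2 * r + 2 * t) ≠ 0 := by
    have : ∀ n, 0 < AP.pochQ X.P.b n := by
      intro n
      induction n with
      | zero => exact one_pos
      | succ n ih => exact mul_pos ih (bn_pos hbp n)
    exact (this _).ne'
  have h4 : ((2 : ℚ) * X.P.sd) ≠ 0 := by
    have : ((X.P.sd : ℕ) : ℚ) ≠ 0 := by exact_mod_cast h.1.ne'
    positivity
  rw [AP2.fac2]
  push_cast
  field_simp

theorem hQ (r t : ℕ) : Cg (QX X r t) (X.Qf2 r t) := Cg_sc (hf h r t) ⟨Cq_zi _, Cq_zi _⟩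

theorem T4_eq : T4 X = X.T4 := fam4X_fun (hT h)

theorem mu4_eq : mu4 X = X.mu4 := fam4X_fun (Cg_mu (hr h) (hi h))

theorem hph (i t : ℕ) : Cg (phF X i t) (phQ X.P.s X.P.D X.P.pf i t) :=
  Cg_ph (hr h) (hi h) h.2.2.2.2.2.2.2 (fun n _ l => hp h n l) i t

theorem P4_eq : P4 X = X.P4 := fam4X_fun (hph h)

theorem hg (i j : ℕ) : Cq (gF X i j) (gmQ X.P.s.re X.P.b (i + j)) :=
  Cq_gm (hr h) (hb h) (hb0 h) _

theorem hm0 (i j : ℕ) : Cq (m0F X i j) (mmQ X.P.s.re X.P.b i j).c0 :=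
  Cq_mm0 (hr h) (hb h) (hb0 h) (hσ h) i j

theorem hm1 (i j : ℕ) : Cq (m1F X i j) (mmQ X.P.s.re X.P.b i j).c1 :=
  Cq_mm1 (hr h) (hb h) (hb0 h) (hσ h) i j

theorem hm2 (i j : ℕ) : Cq (m2F X i j) (mmQ X.P.s.re X.P.b i j).c2 :=
  Cq_mm2 (hr h) (hb h) (hb0 h) i j

theorem hs0 (l n : ℕ) : Cq (s0F X l n)
    ((ssQ X.P.s.re X.P.b n l).1 - (ssQ X.P.s.re X.P.b n (l + 1)).1) :=
  Cq_sub (Cq_ss1 (hr h) (hb h) (hb0 h) (hσ h) n l) (Cq_ss1 (hr h) (hb h) (hb0 h) (hσ h) n (l + 1))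

theorem hs1 (l n : ℕ) : Cq (s1F X l n)
    ((ssQ X.P.s.re X.P.b n l).2 - (ssQ X.P.s.re X.P.b n (l + 1)).2) :=
  Cq_sub (Cq_ss2 (hr h) (hb h) (hb0 h) (hσ h) n l) (Cq_ss2 (hr h) (hb h) (hb0 h) (hσ h) n (l + 1))

theorem hw1 (l m : ℕ) : Cq (w1F X l m) (wQ X.P.b (l + m + 1)) := Cq_w (hb h) (hb0 h) _

theorem hw0 (l m : ℕ) : Cq (w0F X l m) (wQ X.P.b (l + m)) := Cq_w (hb h) (hb0 h) _

theorem G4f_eq : G4f X = X.G4f := by
  rw [G4f, AP2.G4f, T4_eq h]
  exact mvX_fun (hg h)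

theorem U4_eq : U4 X = X.U4 := by
  rw [U4, AP2.U4, G4f_eq h]
  exact mvX_fun (fun l n => hp h n l)

theorem M04_eq : M04 X = X.M04 := by
  rw [M04, AP2.M04, T4_eq h]
  exact mvX_fun (hm0 h)

theorem M14_eq : M14 X = X.M14 := by
  rw [M14, AP2.M14, T4_eq h]
  exact mvX_fun (hm1 h)

theorem M24_eq : M24 X = X.M24 := by
  rw [M24, AP2.M24, T4_eq h]
  exact mvX_fun (hm2 h)

theorem S04_eq : S04 X = X.S04 := by
  rw [S04, AP2.S04, T4_eq h]
  exact mvX_fun (hs0 h)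

theorem S14_eq : S14 X = X.S14 := by
  rw [S14, AP2.S14, T4_eq h]
  exact mvX_fun (hs1 h)

theorem W4_eq : W4 X = X.W4 := by
  rw [W4, AP2.W4, U4_eq h]
  exact mvX_fun (hw1 h)

theorem D4_eq : D4 X = X.D4 := by
  rw [D4, AP2.D4, P4_eq h]
  exact mvX_fun (hw0 h)

theorem C4_eq : C4 X = X.C4 := by
  have e : ∀ l k, wwEX (rX X) (bX X) X.P.D (pX X) X.P.J2 X.P.th l k
      = wwE X.P.s.re X.P.b X.P.D X.P.pf X.P.J2 X.P.th l k := fun l k =>
    wwEX_eq (hr h) (hb h) (hb0 h) (fun n _ l _ => hp h n l) X.P.J2 X.P.th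
  have e1 : wP4 X = X.wP4 := by
    funext l
    rw [wP4, AP2.wP4]
    exact tabG_congr (fun k _ => by rw [e])
  have e2 : wN4 X = X.wN4 := by
    funext l
    rw [wN4, AP2.wN4]
    exact tabG_congr (fun k _ => by rw [e])
  rw [C4, AP2.C4, P4_eq h, e1, e2]

theorem dT_eq : dT X = X.dT := lcdCX_eq (fun i _ t _ => hT h i t)

theorem dmu_eq : dmu X = X.dmu := lcdCX_eq (fun i _ t _ => Cg_mu (hr h) (hi h) i t)

theorem dP_eq : dP X = X.dP := lcdCX_eq (fun i _ t _ => hph h i t)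

theorem dG_eq : dG X = X.dG := by
  rw [dG, AP2.dG, dT_eq h, lcd2X_eq (fun i _ j _ => hg h i j)]
  rfl

theorem dU_eq : dU X = X.dU := by
  have e : ∀ i j, Cq (ptF X i j) (X.P.pf j i) := fun i j => hp h j i
  rw [dU, AP2.dU, dG_eq h, lcd2X_eq (fun i _ j _ => e i j)]
  rfl

theorem dM0_eq : dM0 X = X.dM0 := by
  rw [dM0, AP2.dM0, dT_eq h, lcd2X_eq (fun i _ j _ => hm0 h i j)]
  rfl

theorem dM1_eq : dM1 X = X.dM1 := by
  rw [dM1, AP2.dM1, dT_eq h, lcd2X_eq (fun i _ j _ => hm1 h i j)]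
  rfl

theorem dM2_eq : dM2 X = X.dM2 := by
  rw [dM2, AP2.dM2, dT_eq h, lcd2X_eq (fun i _ j _ => hm2 h i j)]
  rfl

theorem dS0_eq : dS0 X = X.dS0 := by
  rw [dS0, AP2.dS0, dT_eq h, lcd2X_eq (fun i _ j _ => hs0 h i j)]
  rfl

theorem dS1_eq : dS1 X = X.dS1 := by
  rw [dS1, AP2.dS1, dT_eq h, lcd2X_eq (fun i _ j _ => hs1 h i j)]
  rfl

theorem dW_eq : dW X = X.dW := by
  rw [dW, AP2.dW, dU_eq h, lcd2X_eq (fun i _ j _ => hw1 h i j)]
  rfl

theorem dD_eq : dD X = X.dD := by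
  rw [dD, AP2.dD, dP_eq h, lcd2X_eq (fun i _ j _ => hw0 h i j)]
  rfl

theorem dC_eq : dC X = X.dC := by
  rw [dC, AP2.dC, dP_eq h,
    wwdX_eq (hr h) (hb h) (hb0 h) (fun n _ l _ => hp h n l) X.P.J2 X.P.th]

theorem dQ_eq : dQ X = X.dQ := lcdCX_eq (fun i _ t _ => hQ h i t)

theorem lA_eq : lA X = X.lA := by
  have e : (fun r t => (⟨nPX X.dQ (QX X r t).re, nNX X.dQ (QX X r t).re,
      nPX X.dQ (QX X r t).im, nNX X.dQ (QX X r t).im⟩ : G4))
      = fun r t => ⟨nP X.dQ (X.Qf2 r t).re, nN X.dQ (X.Qf2 r t).re,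
        nP X.dQ (X.Qf2 r t).im, nN X.dQ (X.Qf2 r t).im⟩ := by
    funext r t
    rw [nPX_eq _ (hQ h r t).1, nNX_eq _ (hQ h r t).1, nPX_eq _ (hQ h r t).2,
      nNX_eq _ (hQ h r t).2]
  rw [lA, AP2.lA, dQ_eq h, e, dT_eq h, dmu_eq h, dG_eq h, dP_eq h, dC_eq h, T4_eq h, mu4_eq h,
    G4f_eq h, P4_eq h, C4_eq h]

theorem lB_eq : lB X = X.lB := by
  rw [lB, AP2.lB, dP_eq h, dD_eq h, dS0_eq h, dW_eq h, dT_eq h, dM0_eq h, dU_eq h, P4_eq h,
    D4_eq h, S04_eq h, W4_eq h, T4_eq h, M04_eq h, U4_eq h]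

theorem lC_eq : lC X = X.lC := by
  rw [lC, AP2.lC, dP_eq h, dS1_eq h, dT_eq h, dM1_eq h, dU_eq h, P4_eq h, S14_eq h, T4_eq h,
    M14_eq h, U4_eq h]

theorem lD_eq : lD X = X.lD := by
  rw [lD, AP2.lD, dT_eq h, dM2_eq h, T4_eq h, M24_eq h]

theorem LL_eq : LL X = X.LL := by
  rw [LL, AP2.LL, lA_eq h, lB_eq h, lC_eq h, lD_eq h]

theorem cc_cc {E S M : ℚ} (hc : cc X E S M = true) : X.cc E S M = true := by
  obtain ⟨h1, h2⟩ := (Bool.and_eq_true _ _).mp hc
  have h3 : 0 < X.LL := by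
    have := Nat.le_of_ble_eq_true h1
    rw [LL_eq h] at this
    exact this
  rw [LL_eq h, lA_eq h, lB_eq h, lC_eq h, lD_eq h] at h2
  rw [AP2.cc, Bool.and_eq_true, decide_eq_true_eq]
  exact ⟨h3, chkP_chkZ h2 (fun i j => hzP_toZ _ i j) (fun i j => hzP_toZ _ i j)
    (fun i j => hzP_toZ _ i j) (fun i j => hzP_toZ _ i j)⟩

end sound

end AF

end Pool.Agent.Helper65.HR2.F7

namespace Pool.Agent.Helper65.HR2

open F7

namespace AP2

/-- the fast form of the check `c7` -/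
noncomputable def c7f (X : AP2) : Bool :=
  Bool.and (Bool.and (Nat.ble 1 X.P.pd) (Nat.ble 1 X.P.td))
  (Bool.and (Bool.and (Bool.and (AF.cc X X.P.Elo X.P.Slo X.Mlo) (AF.cc X X.P.Elo X.P.Shi X.Mlo))
    (Bool.and (AF.cc X X.P.Ehi X.P.Slo X.Mlo) (AF.cc X X.P.Ehi X.P.Shi X.Mlo)))
  (Bool.and (Bool.and (AF.cc X X.P.Elo X.P.Slo X.Mhi) (AF.cc X X.P.Elo X.P.Shi X.Mhi))
    (Bool.and (AF.cc X X.P.Ehi X.P.Slo X.Mhi) (AF.cc X X.P.Ehi X.P.Shi X.Mhi))))

/-- the fast form implies the check `c7` -/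
theorem c7_of_c7f {X : AP2} (h1 : X.P.c1 = true) (h : X.c7f = true) : X.c7 = true := by
  obtain ⟨h2, h3⟩ := (Bool.and_eq_true _ _).mp h
  obtain ⟨h4, h5⟩ := (Bool.and_eq_true _ _).mp h2
  have hpd := Nat.le_of_ble_eq_true h4
  have htd := Nat.le_of_ble_eq_true h5
  simp only [AP.c1, Bool.and_eq_true, decide_eq_true_eq] at h1
  obtain ⟨⟨⟨⟨⟨⟨⟨⟨⟨⟨⟨⟨⟨⟨hsd, hbd⟩, hN⟩, hq0⟩, hq1⟩, hb0⟩, hb1⟩, hσ⟩, -⟩, -⟩, hDJ⟩, hk⟩, hta⟩, hth⟩, -⟩ := h1
  have hs : 1 + X.P.s.re ≠ 0 := by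
    intro h6
    have h7 : X.P.s.re = -1 := by linarith
    rw [GQ.nsq, h7] at hq1
    have := mul_self_nonneg X.P.s.im
    linarith
  have hok : AF.ok X := ⟨hsd, hbd, hpd, htd, hN, hb0, hσ, hs⟩
  obtain ⟨h6, h7⟩ := (Bool.and_eq_true _ _).mp h3
  obtain ⟨h8, h9⟩ := (Bool.and_eq_true _ _).mp h6
  obtain ⟨h10, h11⟩ := (Bool.and_eq_true _ _).mp h7
  obtain ⟨k1, k2⟩ := (Bool.and_eq_true _ _).mp h8
  obtain ⟨k3, k4⟩ := (Bool.and_eq_true _ _).mp h9
  obtain ⟨k5, k6⟩ := (Bool.and_eq_true _ _).mp h10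
  obtain ⟨k7, k8⟩ := (Bool.and_eq_true _ _).mp h11
  simp only [c7, Bool.and_eq_true]
  exact ⟨⟨⟨⟨⟨⟨⟨AF.cc_cc hok k1, AF.cc_cc hok k2⟩, AF.cc_cc hok k3⟩, AF.cc_cc hok k4⟩,
    AF.cc_cc hok k5⟩, AF.cc_cc hok k6⟩, AF.cc_cc hok k7⟩, AF.cc_cc hok k8⟩

end AP2

end Pool.Agent.Helper65.HR2
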